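import Mathlib

/-!
# Chains of reflections
-/

set_option autoImplicit false

namespace Pool.Agent.H39.QP

/-- The energy of a stage: lower bound. -/
theorem stage_lower {t t' κ ρ a b K N B : ℝ} (hρ : 0 ≤ ρ) (ht : 0 ≤ t) (hκ : 0 ≤ κ) (hκB : κ ≤ B)
    (hN : 1 ≤ N) (hK : 4 * N * (B + 1) ^ 2 ≤ K) (hα : t ≤ t')
    (hγ : -(|a| + |b|) ≤ 2 * κ * ρ - t - t') :
    -(ρ ^ 2 / N) ≤ (t' - t) * (2 * κ * ρ - t - t') + K * (a ^ 2 + b ^ 2) ∧
      ((t' - t) * (2 * κ * ρ - t - t') + K * (a ^ 2 + b ^ 2) ≤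
        2 * ρ ^ 2 → 1 ≤ B → 0 < ρ → |t' - t| ≤ 2 * ρ ∨ |t' - (2 * κ * ρ - t)| ≤ 2 * ρ) := by
  obtain ⟨e, he⟩ : ∃ e, e = |a| + |b| := ⟨_, rfl⟩
  have ha := abs_nonneg a
  have hb := abs_nonneg b
  have he0 : 0 ≤ e := by rw [he]; positivity
  have hB0 : 0 ≤ B := hκ.trans hκB
  have hB1 : (1 : ℝ) ≤ (B + 1) ^ 2 := by nlinarith
  have hNB : 1 ≤ N * (B + 1) ^ 2 := by nlinarith
  have hK0 : 4 ≤ K := by nlinarith
  have hsq : e ^ 2 / 2 ≤ a ^ 2 + b ^ 2 := by
    have h1 := sq_abs a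
    have h2 := sq_abs b
    have h3 := sq_nonneg (|a| - |b|)
    rw [he]
    nlinarith
  rw [← he] at hγ
  obtain ⟨γ, hγd⟩ : ∃ γ, γ = 2 * κ * ρ - t - t' := ⟨_, rfl⟩
  obtain ⟨α, hαd⟩ : ∃ α, α = t' - t := ⟨_, rfl⟩
  have hα0 : 0 ≤ α := by rw [hαd]; linarith
  rw [← hγd] at hγ ⊢
  rw [← hαd]
  have hKe : K * (e ^ 2 / 2) ≤ K * (a ^ 2 + b ^ 2) := mul_le_mul_of_nonneg_left hsq (by linarith)
  -- main lower bound
  have hlow : 0 ≤ γ ∨ (K / 2 - 1) * e ^ 2 - 2 * κ * ρ * e ≤ α * γ + K * (a ^ 2 + b ^ 2) := by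
    rcases le_or_gt 0 γ with h | h
    · exact Or.inl h
    · right
      have h1 : α ≤ 2 * κ * ρ + e := by rw [hαd]; linarith
      have h2 : α * γ ≥ -(2 * κ * ρ + e) * e := by nlinarith
      nlinarith
  have hMN : N * κ ^ 2 ≤ K / 2 - 1 := by
    have h1 : κ ^ 2 ≤ (B + 1) ^ 2 := by nlinarith
    have h2 : N * κ ^ 2 ≤ N * (B + 1) ^ 2 := mul_le_mul_of_nonneg_left h1 (by linarith)
    nlinarith
  constructor
  · rcases hlow with h | h
    · have h1 : 0 ≤ α * γ := mul_nonneg hα0 h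
      have h2 : 0 ≤ K * (a ^ 2 + b ^ 2) := by positivity
      have h3 : 0 ≤ ρ ^ 2 / N := by positivity
      linarith
    · refine le_trans ?_ h
      have h1 : N * κ ^ 2 * e ^ 2 ≤ (K / 2 - 1) * e ^ 2 :=
        mul_le_mul_of_nonneg_right hMN (by positivity)
      have hN0 : (0 : ℝ) < N := by linarith
      have h2 : N * κ ^ 2 * e ^ 2 - 2 * κ * ρ * e + ρ ^ 2 / N = (N * κ * e - ρ) ^ 2 / N := by
        field_simp
        ring
      have h3 : 0 ≤ (N * κ * e - ρ) ^ 2 / N := by positivity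
      linarith
  · intro hF hB hρ
    have heρ : e < ρ ∨ e = ρ := by
      by_contra hcon
      push Not at hcon
      have hge : ρ < e := lt_of_le_of_ne hcon.1 (Ne.symm hcon.2)
      rcases hlow with h | h
      · have h1 : 0 ≤ α * γ := mul_nonneg hα0 h
        nlinarith
      · have h4 : 2 * κ + 2 ≤ K / 2 - 1 := by nlinarith
        have h5 : 2 * κ * ρ * e ≤ 2 * κ * e ^ 2 := by
          have : κ * ρ * e ≤ κ * e * e := by
            apply mul_le_mul_of_nonneg_right _ he0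
            exact mul_le_mul_of_nonneg_left hge.le hκ
          nlinarith
        have h6 : (2 * κ + 2) * e ^ 2 ≤ (K / 2 - 1) * e ^ 2 :=
          mul_le_mul_of_nonneg_right h4 (by positivity)
        nlinarith
    have heρ' : e ≤ ρ := by
      rcases heρ with h | h
      · exact h.le
      · exact h.le
    have hKn : 0 ≤ K * (a ^ 2 + b ^ 2) := by positivity
    rcases le_or_gt α (2 * ρ) with h | h
    · left
      rw [abs_le]
      constructor <;> linarith
    · right
      have h1 : γ ≤ ρ := by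
        by_contra hcon
        push Not at hcon
        nlinarith
      rw [abs_le]
      constructor <;> linarith

theorem start_lower {t κ ρ a K N B : ℝ} (hρ : 0 ≤ ρ) (ht : 0 ≤ t) (hκ : 0 ≤ κ) (hκB : κ ≤ B)
    (hN : 1 ≤ N) (hK : 4 * N * (B + 1) ^ 2 ≤ K) (hγ : -|a| ≤ κ * ρ - t) :
    -(ρ ^ 2 / N) ≤ (κ * ρ - t) * (κ * ρ + t) + K * a ^ 2 ∧
      ((κ * ρ - t) * (κ * ρ + t) + K * a ^ 2 ≤ 2 * ρ ^ 2 → 1 ≤ B → 0 < ρ →
        |t - κ * ρ| ≤ 2 * ρ) := by
  obtain ⟨e, he⟩ : ∃ e, e = |a| := ⟨_, rfl⟩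
  have he0 : 0 ≤ e := by rw [he]; exact abs_nonneg a
  have hB0 : 0 ≤ B := hκ.trans hκB
  have hB1 : (1 : ℝ) ≤ (B + 1) ^ 2 := by nlinarith
  have hNB : 1 ≤ N * (B + 1) ^ 2 := by nlinarith
  have hK0 : 4 ≤ K := by nlinarith
  have hsq : a ^ 2 = e ^ 2 := by rw [he, sq_abs]
  rw [← he] at hγ
  rw [hsq]
  obtain ⟨γ, hγd⟩ : ∃ γ, γ = κ * ρ - t := ⟨_, rfl⟩
  obtain ⟨α, hαd⟩ : ∃ α, α = κ * ρ + t := ⟨_, rfl⟩
  have hα0 : 0 ≤ α := by rw [hαd]; positivity
  rw [← hγd] at hγ ⊢
  rw [← hαd]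
  have hlow : 0 ≤ γ ∨ (K / 2 - 1) * e ^ 2 - 2 * κ * ρ * e ≤ γ * α + K * e ^ 2 := by
    rcases le_or_gt 0 γ with h | h
    · exact Or.inl h
    · right
      have h1 : α ≤ 2 * κ * ρ + e := by rw [hαd]; linarith
      have h2 : γ * α ≥ -(2 * κ * ρ + e) * e := by nlinarith
      nlinarith
  have hMN : N * κ ^ 2 ≤ K / 2 - 1 := by
    have h1 : κ ^ 2 ≤ (B + 1) ^ 2 := by nlinarith
    have h2 : N * κ ^ 2 ≤ N * (B + 1) ^ 2 := mul_le_mul_of_nonneg_left h1 (by linarith)
    nlinarith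
  constructor
  · rcases hlow with h | h
    · have h1 : 0 ≤ γ * α := mul_nonneg h hα0
      have h2 : 0 ≤ K * e ^ 2 := by positivity
      have h3 : 0 ≤ ρ ^ 2 / N := by positivity
      linarith
    · refine le_trans ?_ h
      have h1 : N * κ ^ 2 * e ^ 2 ≤ (K / 2 - 1) * e ^ 2 :=
        mul_le_mul_of_nonneg_right hMN (by positivity)
      have hN0 : (0 : ℝ) < N := by linarith
      have h2 : N * κ ^ 2 * e ^ 2 - 2 * κ * ρ * e + ρ ^ 2 / N = (N * κ * e - ρ) ^ 2 / N := by
        field_simp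
        ring
      have h3 : 0 ≤ (N * κ * e - ρ) ^ 2 / N := by positivity
      linarith
  · intro hF hB hρ
    have heρ : e ≤ ρ := by
      by_contra hcon
      push Not at hcon
      rcases hlow with h | h
      · have h1 : 0 ≤ γ * α := mul_nonneg h hα0
        nlinarith
      · have h4 : 2 * κ + 2 ≤ K / 2 - 1 := by nlinarith
        have h5 : 2 * κ * ρ * e ≤ 2 * κ * e ^ 2 := by
          have : κ * ρ * e ≤ κ * e * e := by
            apply mul_le_mul_of_nonneg_right _ he0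
            exact mul_le_mul_of_nonneg_left hcon.le hκ
          nlinarith
        have h6 : (2 * κ + 2) * e ^ 2 ≤ (K / 2 - 1) * e ^ 2 :=
          mul_le_mul_of_nonneg_right h4 (by positivity)
        nlinarith
    have hKn : 0 ≤ K * e ^ 2 := by positivity
    rw [abs_le]
    constructor
    · by_contra hcon
      push Not at hcon
      have h1 : 2 * ρ < γ := by linarith
      have h2 : 2 * ρ < α := by linarith
      nlinarith
    · linarith

/-- Following a chain up to errors. -/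
theorem track {n : ℕ} {t : ℕ → ℝ} {L : ℕ → ℤ} {Z : ℕ → ℤ → Prop} {ρ g : ℝ} {z0 : ℤ} {c : ℝ}
    (hZ0 : Z 0 z0) (hZ : ∀ i < n, ∀ z, Z i z → Z (i + 1) z ∧ Z (i + 1) (L i - z))
    (h0 : |t 0 - 2 * g * z0 * ρ| ≤ 2 * ρ * c)
    (hs : ∀ i < n, |t (i + 1) - t i| ≤ 2 * ρ ∨ |t (i + 1) - (2 * (g * L i) * ρ - t i)| ≤ 2 * ρ) :
    ∀ i ≤ n, ∃ z : ℤ, Z i z ∧ |t i - 2 * g * z * ρ| ≤ 2 * ρ * (c + i) := by
  intro i hi
  induction i with
  | zero => exact ⟨z0, hZ0, by simpa using h0⟩
  | succ i ih =>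
    obtain ⟨z, hz, hzt⟩ := ih (by omega)
    obtain ⟨g1, g2⟩ := hZ i (by omega) z hz
    rcases hs i (by omega) with h | h
    · refine ⟨z, g1, ?_⟩
      have := abs_add_le (t (i + 1) - t i) (t i - 2 * g * z * ρ)
      have e : t (i + 1) - t i + (t i - 2 * g * z * ρ) = t (i + 1) - 2 * g * z * ρ := by ring
      rw [e] at this
      push_cast
      linarith
    · refine ⟨L i - z, g2, ?_⟩
      have := abs_sub (t (i + 1) - (2 * (g * L i) * ρ - t i)) (t i - 2 * g * z * ρ)
      have e : t (i + 1) - (2 * (g * L i) * ρ - t i) - (t i - 2 * g * z * ρ) =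
        t (i + 1) - 2 * g * ((L i - z : ℤ) : ℝ) * ρ := by push_cast; ring
      rw [e] at this
      push_cast at this ⊢
      linarith

/-- numbers which are `o` plus a subset sum of the first `i` terms of `b` -/
def IsSub (b : ℕ → ℤ) (o : ℤ) (i : ℕ) (z : ℤ) : Prop :=
  ∃ S ⊆ Finset.range i, z = o + ∑ k ∈ S, b k

theorem IsSub.step {b : ℕ → ℤ} {o : ℤ} {i : ℕ} {z : ℤ} (h : IsSub b o i z) :
    IsSub b o (i + 1) z ∧ IsSub b o (i + 1) (2 * o + ∑ k ∈ Finset.range (i + 1), b k - z) := by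
  obtain ⟨S, hS, rfl⟩ := h
  have hsub : S ⊆ Finset.range (i + 1) :=
    hS.trans (Finset.range_subset_range.2 (Nat.le_succ i))
  refine ⟨⟨S, hsub, rfl⟩, ⟨Finset.range (i + 1) \ S, Finset.sdiff_subset, ?_⟩⟩
  have := Finset.sum_sdiff hsub (f := b)
  linarith

/-- Every subset sum is reached by a chain of reflections. -/
theorem exists_path (b : ℕ → ℤ) (o : ℤ) (hb : ∀ i, 0 ≤ b i)
    (hsup : ∀ i, ∑ k ∈ Finset.range i, b k ≤ b i) :
    ∀ (n : ℕ) (S : Finset ℕ), S ⊆ Finset.range n → ∃ z : ℕ → ℤ, z 0 = o ∧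
      z n = o + ∑ k ∈ S, b k ∧ ∀ i < n,
        z i ≤ z (i + 1) ∧ z i + z (i + 1) ≤ 2 * o + ∑ k ∈ Finset.range (i + 1), b k ∧
        (z (i + 1) - z i) * (2 * o + ∑ k ∈ Finset.range (i + 1), b k - z i - z (i + 1)) = 0 := by
  intro n
  induction n with
  | zero =>
    intro S hS
    have : S = ∅ := by simpa using hS
    subst this
    exact ⟨fun _ => o, rfl, by simp, fun i hi => by omega⟩
  | succ n ih =>
    intro S hS
    -- a value at level `n` in the lower half
    have hhalf : ∀ S' ⊆ Finset.range n, 2 * ∑ k ∈ S', b k ≤ ∑ k ∈ Finset.range (n + 1), b k := by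
      intro S' hS'
      have h1 : ∑ k ∈ S', b k ≤ ∑ k ∈ Finset.range n, b k :=
        Finset.sum_le_sum_of_subset_of_nonneg hS' fun i _ _ => hb i
      have h2 := hsup n
      rw [Finset.sum_range_succ]
      linarith
    by_cases hn : n ∈ S
    · obtain ⟨z, hz0, hzn, hz⟩ := ih (Finset.range n \ S) Finset.sdiff_subset
      have hsplit : ∑ k ∈ Finset.range (n + 1), b k =
          ∑ k ∈ S, b k + ∑ k ∈ Finset.range n \ S, b k := by
        have h1 := Finset.sum_sdiff hS (f := b)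
        have h2 : Finset.range (n + 1) \ S = Finset.range n \ S := by
          ext k
          simp only [Finset.mem_sdiff, Finset.mem_range]
          constructor
          · rintro ⟨h3, h4⟩
            refine ⟨?_, h4⟩
            rcases Nat.lt_succ_iff_lt_or_eq.1 h3 with h5 | h5
            · exact h5
            · subst h5; exact absurd hn h4
          · rintro ⟨h3, h4⟩
            exact ⟨by omega, h4⟩
        rw [h2] at h1
        linarith
      refine ⟨Function.update z (n + 1) (2 * o + ∑ k ∈ Finset.range (n + 1), b k - z n), ?_, ?_, ?_⟩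
      · rw [Function.update_of_ne (by omega)]; exact hz0
      · rw [Function.update_self, hzn]
        linarith
      · intro i hi
        rcases Nat.lt_succ_iff_lt_or_eq.1 hi with h5 | h5
        · rw [Function.update_of_ne (by omega), Function.update_of_ne (by omega)]
          exact hz i h5
        · subst h5
          rw [Function.update_self, Function.update_of_ne (by omega)]
          have h6 := hhalf _ (Finset.sdiff_subset (s := Finset.range i) (t := S))
          refine ⟨by linarith, by linarith, by ring⟩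
    · have hS' : S ⊆ Finset.range n := by
        intro k hk
        have := Finset.mem_range.1 (hS hk)
        rw [Finset.mem_range]
        rcases Nat.lt_succ_iff_lt_or_eq.1 this with h5 | h5
        · exact h5
        · subst h5; exact absurd hk hn
      obtain ⟨z, hz0, hzn, hz⟩ := ih S hS'
      refine ⟨Function.update z (n + 1) (z n), ?_, ?_, ?_⟩
      · rw [Function.update_of_ne (by omega)]; exact hz0
      · rw [Function.update_self, hzn]
      · intro i hi
        rcases Nat.lt_succ_iff_lt_or_eq.1 hi with h5 | h5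
        · rw [Function.update_of_ne (by omega), Function.update_of_ne (by omega)]
          exact hz i h5
        · subst h5
          rw [Function.update_self, Function.update_of_ne (by omega)]
          have h6 := hhalf S hS'
          refine ⟨le_rfl, by linarith, by ring⟩

end Pool.Agent.H39.QP
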