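import Mathlib
import Pool.Graph.R_seed8.NPC.Classes

/-!
# Separable quadratic integer programs with totally unimodular constraints

Vectors are lists of integers, matrices are lists of rows.
-/

set_option autoImplicit false

namespace Pool.Agent.H39.QP

open Pool.Agent.NPC

/-- An instance: minimise `∑ i, (c i * x i ^ 2 + h i * x i)` subject to `W x ≤ w`, `x` integral.
The index set `C` of the convex variables is the set of the `i` with `0 < c i`, the index set `V` of
the concave variables is the set of the `i` with `c i < 0`, and `q i = |c i|` for `i` in `C ∪ V`. -/
structure Instance where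
  /-- the rows of the constraint matrix -/
  W : List (List ℤ)
  /-- the right-hand sides -/
  w : List ℤ
  /-- the linear part of the objective -/
  h : List ℤ
  /-- the signed coefficients of the squares -/
  c : List ℤ

/-- The instance as a tuple. -/
def Instance.tuple (I : Instance) : List (List ℤ) × List ℤ × List ℤ × List ℤ :=
  (I.W, I.w, I.h, I.c)

/-- Instances are encoded as tuples of lists, with the numbers in binary. -/
instance : TEnc Instance := ⟨fun I => toT I.tuple, fun I J h => by
  have h1 : I.tuple = J.tuple := TEnc.inj h
  cases I; cases J
  simpa [Instance.tuple] using h1⟩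

/-- the number of variables -/
def Instance.n (I : Instance) : ℕ := I.h.length

/-- the number of constraints -/
def Instance.m (I : Instance) : ℕ := I.w.length

/-- The lists have the right lengths: `W` is an `m × n` matrix with `m, n ≥ 1`, `w` has `m` entries,
`h` and `c` have `n` entries. -/
structure Instance.WF (I : Instance) : Prop where
  one_le_n : 1 ≤ I.n
  one_le_m : 1 ≤ I.m
  rows : I.W.length = I.m
  cols : ∀ r ∈ I.W, r.length = I.n
  c_len : I.c.length = I.n

/-- The constraint matrix. -/
def Instance.matrix (I : Instance) : Matrix (Fin I.m) (Fin I.n) ℤ :=
  Matrix.of fun i j => (I.W.getD i []).getD j 0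

/-- The scalar product of two vectors. -/
def dot (u v : List ℤ) : ℤ := (List.zipWith (fun a b => a * b) u v).sum

/-- The objective function. -/
def Instance.cost (I : Instance) (x : List ℤ) : ℤ := dot I.c (x.map fun a => a ^ 2) + dot I.h x

/-- `x` is an integral vector with `W x ≤ w`. -/
def Instance.Feasible (I : Instance) (x : List ℤ) : Prop :=
  x.length = I.n ∧ List.Forall₂ (fun r b => dot r x ≤ b) I.W I.w

/-- The number of concave variables, that is, of the indices `i` with `c i < 0`. -/
def Instance.concave (I : Instance) : ℕ := I.c.countP fun a => decide (a < 0)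

/-- The objective is unbounded below on the feasible set. -/
def Instance.Unbounded (I : Instance) : Prop := ∀ B : ℤ, ∃ x, I.Feasible x ∧ I.cost x < B

/-- `x` is an optimal solution. -/
def Instance.IsOpt (I : Instance) (x : List ℤ) : Prop :=
  I.Feasible x ∧ ∀ y, I.Feasible y → I.cost x ≤ I.cost y

/-- The supremum of the objective over the feasible set, in `[-∞, ∞]`. -/
noncomputable def Instance.fmax (I : Instance) : EReal :=
  ⨆ x : {x : List ℤ // I.Feasible x}, (((I.cost x.1 : ℤ) : ℝ) : EReal)

/-- `x` is an `ε`-approximate solution of an instance which has an optimal solution: for an optimal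
solution `x'`, either `f x' = fmax`, or `fmax = ∞`, or `(f x - f x') / (fmax - f x') ≤ ε`. -/
def Instance.IsApprox (I : Instance) (ε : ℝ) (x : List ℤ) : Prop :=
  I.Feasible x ∧ ∀ x', I.IsOpt x' → I.fmax = (((I.cost x' : ℤ) : ℝ) : EReal) ∨ I.fmax = ⊤ ∨
    ((I.cost x : ℝ) - (I.cost x' : ℝ)) / (I.fmax.toReal - (I.cost x' : ℝ)) ≤ ε

/-- Possible answers of an algorithm: `none` stands for `infeasible`, `some none` for `unbounded`,
and `some (some x)` for the vector `x`. -/
abbrev Answer : Type := Option (Option (List ℤ))

/-- The function `A` on bit strings maps the code of every instance with totally unimodular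
constraint matrix and at most `p` concave variables to the code of a correct answer: it reports
that the instance is infeasible or unbounded below if this is the case, and otherwise it returns an
`ε`-approximate solution. -/
def Solves (p : ℕ) (ε : ℝ) (A : List Bool → List Bool) : Prop :=
  ∀ I : Instance, I.WF → I.matrix.IsTotallyUnimodular → I.concave ≤ p →
    ((¬ ∃ x, I.Feasible x) → A (bits I) = bits (none : Answer)) ∧
    (I.Unbounded → A (bits I) = bits (some none : Answer)) ∧
    ((∃ x, I.Feasible x) → ¬ I.Unbounded →
      ∃ x : List ℤ, A (bits I) = bits (some (some x) : Answer) ∧ I.IsApprox ε x)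

end Pool.Agent.H39.QP
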