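import Pool.Agent.H39.QP.Graph
import Pool.Agent.H39.QP.Chain

/-!
# The network and its energy
-/

set_option autoImplicit false

namespace Pool.Agent.H39.QP

/-- upper bead -/
def nX (c : Bool) (i : ℕ) : Nd := (cond c 4 0, i)
/-- lower bead -/
def nY (c : Bool) (i : ℕ) : Nd := (cond c 5 1, i)
/-- end of the first rod -/
def nP (c : Bool) (i : ℕ) : Nd := (cond c 6 2, i)
/-- end of the second rod -/
def nR (c : Bool) (i : ℕ) : Nd := (cond c 7 3, i)
/-- far away, above -/
def nH : Nd := (8, 0)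
/-- far away, below -/
def nL : Nd := (9, 0)
/-- end of the rod of the start -/
def nS : Nd := (10, 0)

/-- all nodes -/
def nodesOf (n : ℕ) : List Nd :=
  ((List.range 8).flatMap fun t => (List.range (n + 1)).map fun i => (t, i)) ++
    [(8, 0), (9, 0), (10, 0)]

/-- order constraints of a stage -/
def stageOrd (c : Bool) (i : ℕ) : List (Nd × Nd) :=
  [(nX c i, nX c (i + 1)), (nY c (i + 1), nY c i), (nX c (i + 1), nP c i), (nX c i, nR c i)]

/-- all order constraints -/
def ordOf (n : ℕ) : List (Nd × Nd) :=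
  [(nL, nH), (nX false 0, nY false 0), (nY false 0, nX false 0), (nY true 0, nX true 0),
    (nX true 0, nS), (nX false n, nX true n), (nX true n, nX false n), (nY false n, nY true n),
    (nY true n, nY false n)] ++
  ((List.range n).flatMap (fun i => stageOrd false i) ++
    (List.range n).flatMap (fun i => stageOrd true i))

/-- weighted edges of a stage -/
def stageEdges (U K : ℕ) (κ : ℕ) (c : Bool) (i : ℕ) : List ((Nd × Nd) × ℤ) :=
  [((nP c i, nY c i), ((4 * U * U * K : ℕ) : ℤ)),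
   ((nR c i, nY c (i + 1)), ((4 * U * U * K : ℕ) : ℤ)),
   ((nH, nP c i), ((4 * U * K * κ : ℕ) : ℤ)), ((nY c i, nL), ((4 * U * K * κ : ℕ) : ℤ)),
   ((nH, nR c i), ((4 * U * K * κ : ℕ) : ℤ)), ((nY c (i + 1), nL), ((4 * U * K * κ : ℕ) : ℤ)),
   ((nH, nY c (i + 1)), ((4 * U * κ : ℕ) : ℤ)), ((nX c (i + 1), nL), ((4 * U * κ : ℕ) : ℤ)),
   ((nH, nX c i), ((4 * U * κ : ℕ) : ℤ)), ((nY c i, nL), ((4 * U * κ : ℕ) : ℤ))]

/-- all weighted edges -/
def edgesOf (n U K : ℕ) (κ : Bool → ℕ → ℕ) (κs cp cm : ℕ) : List ((Nd × Nd) × ℤ) :=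
  [((nS, nY true 0), ((4 * U * U * K : ℕ) : ℤ)), ((nH, nS), ((4 * U * K * κs : ℕ) : ℤ)),
    ((nY true 0, nL), ((4 * U * K * κs : ℕ) : ℤ)), ((nH, nL), ((cp : ℕ) : ℤ)),
    ((nX false n, nY false n), -((8 * U * U : ℕ) : ℤ)), ((nH, nL), -((cm : ℕ) : ℤ))] ++
  ((List.range n).flatMap (fun i => stageEdges U K (κ false i) false i) ++
    (List.range n).flatMap (fun i => stageEdges U K (κ true i) true i))

/-- the description of the quadratic form -/
def grOf (n U K : ℕ) (κ : Bool → ℕ → ℕ) (κs cp cm : ℕ) : Gr :=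
  (nodesOf n, ordOf n, edgesOf n U K κ κs cp cm)

theorem mem_nodesOf {n : ℕ} {v : Nd} :
    v ∈ nodesOf n ↔ (v.1 < 8 ∧ v.2 < n + 1) ∨ v = (8, 0) ∨ v = (9, 0) ∨ v = (10, 0) := by
  unfold nodesOf
  simp only [List.mem_append, List.mem_flatMap, List.mem_range, List.mem_map, List.mem_cons,
    List.not_mem_nil, or_false]
  constructor
  · rintro (⟨t, ht, i, hi, rfl⟩ | h)
    · exact Or.inl ⟨ht, hi⟩
    · exact Or.inr h
  · rintro (⟨h1, h2⟩ | h)
    · exact Or.inl ⟨v.1, h1, v.2, h2, rfl⟩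
    · exact Or.inr h

theorem nX_mem {n i : ℕ} (c : Bool) (h : i ≤ n) : nX c i ∈ nodesOf n := by
  rw [mem_nodesOf]; left; cases c <;> simp [nX] <;> omega
theorem nY_mem {n i : ℕ} (c : Bool) (h : i ≤ n) : nY c i ∈ nodesOf n := by
  rw [mem_nodesOf]; left; cases c <;> simp [nY] <;> omega
theorem nP_mem {n i : ℕ} (c : Bool) (h : i ≤ n) : nP c i ∈ nodesOf n := by
  rw [mem_nodesOf]; left; cases c <;> simp [nP] <;> omega
theorem nR_mem {n i : ℕ} (c : Bool) (h : i ≤ n) : nR c i ∈ nodesOf n := by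
  rw [mem_nodesOf]; left; cases c <;> simp [nR] <;> omega
theorem nH_mem {n : ℕ} : nH ∈ nodesOf n := by rw [mem_nodesOf]; right; left; rfl
theorem nL_mem {n : ℕ} : nL ∈ nodesOf n := by rw [mem_nodesOf]; right; right; left; rfl
theorem nS_mem {n : ℕ} : nS ∈ nodesOf n := by rw [mem_nodesOf]; right; right; right; rfl

theorem nodesOf_nodup (n : ℕ) : (nodesOf n).Nodup := by
  unfold nodesOf
  rw [List.nodup_append']
  refine ⟨?_, by decide, ?_⟩
  · rw [List.nodup_flatMap]
    constructor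
    · intro t _
      exact (List.nodup_range).map (fun a b h => by simpa using h)
    · refine List.Pairwise.imp ?_ (List.nodup_range (n := 8))
      intro a b hab
      rw [Function.onFun, List.disjoint_left]
      intro v hv hv'
      rw [List.mem_map] at hv hv'
      obtain ⟨i, _, rfl⟩ := hv
      obtain ⟨j, _, h⟩ := hv'
      simp only [Prod.mk.injEq] at h
      exact hab h.1.symm
  · rw [List.disjoint_left]
    intro v hv hv'
    rw [List.mem_flatMap] at hv
    obtain ⟨t, ht, hv⟩ := hv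
    rw [List.mem_map] at hv
    obtain ⟨i, _, rfl⟩ := hv
    rw [List.mem_range] at ht
    simp only [List.mem_cons, Prod.mk.injEq, List.not_mem_nil, or_false] at hv'
    omega

theorem good_grOf (n U K : ℕ) (κ : Bool → ℕ → ℕ) (κs cp cm : ℕ) :
    Good (grOf n U K κ κs cp cm) where
  nodup := nodesOf_nodup n
  ord := by
    intro e he
    change e ∈ ordOf n at he
    change e.1 ∈ nodesOf n ∧ e.2 ∈ nodesOf n
    simp only [ordOf, List.mem_append, List.mem_flatMap, List.mem_range, stageOrd, List.mem_cons,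
      List.not_mem_nil, or_false] at he
    rcases he with (rfl | rfl | rfl | rfl | rfl | rfl | rfl | rfl | rfl) |
      (⟨i, hi, rfl | rfl | rfl | rfl⟩ | ⟨i, hi, rfl | rfl | rfl | rfl⟩)
    all_goals
      first
      | exact ⟨nL_mem, nH_mem⟩
      | exact ⟨nX_mem _ (by omega), nY_mem _ (by omega)⟩
      | exact ⟨nY_mem _ (by omega), nX_mem _ (by omega)⟩
      | exact ⟨nX_mem _ (by omega), nS_mem⟩
      | exact ⟨nX_mem _ (by omega), nX_mem _ (by omega)⟩
      | exact ⟨nY_mem _ (by omega), nY_mem _ (by omega)⟩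
      | exact ⟨nX_mem _ (by omega), nP_mem _ (by omega)⟩
      | exact ⟨nX_mem _ (by omega), nR_mem _ (by omega)⟩
  edges := by
    intro e he
    change e ∈ edgesOf n U K κ κs cp cm at he
    change e.1.1 ∈ nodesOf n ∧ e.1.2 ∈ nodesOf n
    simp only [edgesOf, List.mem_append, List.mem_flatMap, List.mem_range, stageEdges,
      List.mem_cons, List.not_mem_nil, or_false] at he
    rcases he with (rfl | rfl | rfl | rfl | rfl | rfl) |
      (⟨i, hi, rfl | rfl | rfl | rfl | rfl | rfl | rfl | rfl | rfl | rfl⟩ |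
       ⟨i, hi, rfl | rfl | rfl | rfl | rfl | rfl | rfl | rfl | rfl | rfl⟩)
    all_goals
      first
      | exact ⟨nS_mem, nY_mem _ (by omega)⟩
      | exact ⟨nH_mem, nS_mem⟩
      | exact ⟨nY_mem _ (by omega), nL_mem⟩
      | exact ⟨nH_mem, nL_mem⟩
      | exact ⟨nX_mem _ (by omega), nY_mem _ (by omega)⟩
      | exact ⟨nP_mem _ (by omega), nY_mem _ (by omega)⟩
      | exact ⟨nR_mem _ (by omega), nY_mem _ (by omega)⟩
      | exact ⟨nH_mem, nP_mem _ (by omega)⟩
      | exact ⟨nH_mem, nR_mem _ (by omega)⟩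
      | exact ⟨nH_mem, nY_mem _ (by omega)⟩
      | exact ⟨nX_mem _ (by omega), nL_mem⟩
      | exact ⟨nH_mem, nX_mem _ (by omega)⟩
  ne := by
    change nodesOf n ≠ []
    intro h
    have := nH_mem (n := n)
    rw [h] at this
    simp at this
  ne' := by
    change ordOf n ≠ []
    simp [ordOf]

theorem sum_map_flatMap (n : ℕ) {α β : Type} (f : ℕ → List α) (F : α → β) (g : β → ℤ) :
    ((((List.range n).flatMap f).map F).map g).sum =
      ∑ i ∈ Finset.range n, (((f i).map F).map g).sum := by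
  induction n with
  | zero => rfl
  | succ n ih =>
    rw [List.range_succ, List.flatMap_append, List.map_append, List.map_append, List.sum_append,
      ih, Finset.sum_range_succ]
    simp

/-- the energy of a stage -/
def SE (U K κ x y p r x' y' H L : ℝ) : ℝ :=
  4 * U * U * K * (p - y) ^ 2 + 4 * U * U * K * (r - y') ^ 2 +
  4 * U * K * κ * (H - p) ^ 2 + 4 * U * K * κ * (y - L) ^ 2 + 4 * U * K * κ * (H - r) ^ 2 +
  4 * U * K * κ * (y' - L) ^ 2 + 4 * U * κ * (H - y') ^ 2 + 4 * U * κ * (x' - L) ^ 2 +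
  4 * U * κ * (H - x) ^ 2 + 4 * U * κ * (y - L) ^ 2

/-- the sum of squares of the positions -/
def GE (K κ x y p r x' y' m : ℝ) : ℝ :=
  2 * K * κ * ((p - m) ^ 2 + (y - m) ^ 2 + (r - m) ^ 2 + (y' - m) ^ 2) +
    2 * κ * ((y' - m) ^ 2 + (x' - m) ^ 2 + (x - m) ^ 2 + (y - m) ^ 2)

theorem SE_eq (U K κ x y p r x' y' H L ρ m : ℝ) (hH : H = m + U * ρ) (hL : L = m - U * ρ) :
    SE U K κ x y p r x' y' H L = U * ((4 * K + 4) * κ) * (H - L) ^ 2 -
      K * (2 * κ ^ 2) * (H - L) ^ 2 +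
      4 * U ^ 2 * (K * ((p - y - κ * ρ) ^ 2 + (r - y' - κ * ρ) ^ 2) +
        2 * κ * ρ * ((x' - y') - (x - y))) + 2 * U * GE K κ x y p r x' y' m := by
  subst hH hL
  unfold SE GE
  ring

theorem Qf_grOf (n U K : ℕ) (κ : Bool → ℕ → ℕ) (κs cp cm : ℕ) (π : Nd → ℤ) :
    ((Qf (grOf n U K κ κs cp cm) π : ℤ) : ℝ) =
      (4 * U * U * K * ((π nS : ℝ) - π (nY true 0)) ^ 2 +
        4 * U * K * κs * ((π nH : ℝ) - π nS) ^ 2 +
        4 * U * K * κs * ((π (nY true 0) : ℝ) - π nL) ^ 2 +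
        cp * ((π nH : ℝ) - π nL) ^ 2 - 8 * U * U * ((π (nX false n) : ℝ) - π (nY false n)) ^ 2 -
        cm * ((π nH : ℝ) - π nL) ^ 2) +
      ((∑ i ∈ Finset.range n, SE U K (κ false i) (π (nX false i)) (π (nY false i))
        (π (nP false i)) (π (nR false i)) (π (nX false (i + 1))) (π (nY false (i + 1)))
        (π nH) (π nL)) +
      ∑ i ∈ Finset.range n, SE U K (κ true i) (π (nX true i)) (π (nY true i))
        (π (nP true i)) (π (nR true i)) (π (nX true (i + 1))) (π (nY true (i + 1)))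
        (π nH) (π nL)) := by
  have h1 : Qf (grOf n U K κ κs cp cm) π =
      (([((nS, nY true 0), ((4 * U * U * K : ℕ) : ℤ)), ((nH, nS), ((4 * U * K * κs : ℕ) : ℤ)),
        ((nY true 0, nL), ((4 * U * K * κs : ℕ) : ℤ)), ((nH, nL), ((cp : ℕ) : ℤ)),
        ((nX false n, nY false n), -((8 * U * U : ℕ) : ℤ)),
        ((nH, nL), -((cm : ℕ) : ℤ))] : List ((Nd × Nd) × ℤ)).map
          fun e => e.2 * (π e.1.1 - π e.1.2) ^ 2).sum +
      ((∑ i ∈ Finset.range n, ((stageEdges U K (κ false i) false i).map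
          fun e => e.2 * (π e.1.1 - π e.1.2) ^ 2).sum) +
        ∑ i ∈ Finset.range n, ((stageEdges U K (κ true i) true i).map
          fun e => e.2 * (π e.1.1 - π e.1.2) ^ 2).sum) := by
    have h2 := sum_map_flatMap n (fun i => stageEdges U K (κ false i) false i) (fun e => e)
      (fun e : (Nd × Nd) × ℤ => e.2 * (π e.1.1 - π e.1.2) ^ 2)
    have h3 := sum_map_flatMap n (fun i => stageEdges U K (κ true i) true i) (fun e => e)
      (fun e : (Nd × Nd) × ℤ => e.2 * (π e.1.1 - π e.1.2) ^ 2)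
    simp only [List.map_id'] at h2 h3
    rw [← h2, ← h3, ← List.sum_append, ← List.map_append, ← List.sum_append, ← List.map_append]
    rfl
  rw [h1]
  push_cast
  congr 1
  · simp only [List.map_cons, List.map_nil, List.sum_cons, List.sum_nil]
    push_cast
    ring
  · congr 1
    · refine Finset.sum_congr rfl fun i _ => ?_
      simp only [stageEdges, List.map_cons, List.map_nil, List.sum_cons, List.sum_nil, SE]
      push_cast
      ring
    · refine Finset.sum_congr rfl fun i _ => ?_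
      simp only [stageEdges, List.map_cons, List.map_nil, List.sum_cons, List.sum_nil, SE]
      push_cast
      ring

theorem sum_SE (n : ℕ) (U K H L ρ m : ℝ) (hH : H = m + U * ρ) (hL : L = m - U * ρ)
    (κ x y p r : ℕ → ℝ) :
    ∑ i ∈ Finset.range n, SE U K (κ i) (x i) (y i) (p i) (r i) (x (i + 1)) (y (i + 1)) H L =
      U * (∑ i ∈ Finset.range n, (4 * K + 4) * κ i) * (H - L) ^ 2 -
      K * (∑ i ∈ Finset.range n, 2 * κ i ^ 2) * (H - L) ^ 2 +
      4 * U ^ 2 * ((∑ i ∈ Finset.range n, (((x (i + 1) - y (i + 1)) - (x i - y i)) *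
          (2 * κ i * ρ - (x i - y i) - (x (i + 1) - y (i + 1))) +
          K * ((p i - y i - κ i * ρ) ^ 2 + (r i - y (i + 1) - κ i * ρ) ^ 2))) +
        (x n - y n) ^ 2 - (x 0 - y 0) ^ 2) +
      2 * U * ∑ i ∈ Finset.range n,
        GE K (κ i) (x i) (y i) (p i) (r i) (x (i + 1)) (y (i + 1)) m := by
  induction n with
  | zero => simp
  | succ n ih =>
    simp only [Finset.sum_range_succ]
    rw [ih, SE_eq U K (κ n) (x n) (y n) (p n) (r n) (x (n + 1)) (y (n + 1)) H L ρ m hH hL]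
    ring

end Pool.Agent.H39.QP
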