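import Pool.Agent.H39.QP.PolyTime
import Pool.Graph.R_seed8.NPC.Dec

/-!
# Hardness
-/

set_option autoImplicit false

namespace Pool.Agent.H39.QP

open Pool.Agent.NPC

theorem hard (L : Set (List Bool)) (hL : InNP L) :
    ∃ f : List Bool → Instance, PolyTime (fun x => bits (f x)) ∧ ∀ x, (f x).WF ∧
      (f x).matrix.IsTotallyUnimodular ∧ (f x).concave = 2 ∧ (∀ b ∈ (f x).w, b = 0) ∧
      (∀ b ∈ (f x).h, b = 0) ∧ (∃ y, (f x).Feasible y) ∧ (x ∈ L ↔ (f x).Unbounded) := by
  obtain ⟨g, hg, _, hgL⟩ := R671.SS.hardPr_SubsetSum L hL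
  refine ⟨fun x => compile (grx (g x)), PC.toPolyTime_bits inst_poly g hg, fun x => ?_⟩
  refine ⟨compile_wf _ (good_grx _), compile_tu _, concave_eq _, ?_, ?_, feas_zero _ (good_grx _),
    ?_⟩
  · intro b hb
    obtain ⟨_, _, rfl⟩ := List.mem_map.1 hb
    rfl
  · intro b hb
    rcases List.mem_append.1 hb with h | h
    · obtain ⟨_, _, rfl⟩ := List.mem_map.1 h
      rfl
    · obtain ⟨_, _, rfl⟩ := List.mem_map.1 h
      rfl
  · rw [hgL x]
    exact correct (g x)

theorem no_algorithm (p : ℕ) (ε : ℝ) (hp : 2 ≤ p)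
    (h : ∃ A : List Bool → List Bool, PolyTime A ∧ Solves p ε A) (L : Set (List Bool))
    (hL : InNP L) : InP L := by
  obtain ⟨A, hA, hS⟩ := h
  obtain ⟨f, hf, hfL⟩ := hard L hL
  have hF : PolyTime (fun x => A (bits (f x))) := H642R2.TMSim.polyTime_comp hA hf
  have ht : NPC.Poly (fun y : List Bool => decide (y = bits (some none : Answer))) :=
    NPC.Poly.decide_eq NPC.Poly.id (NPC.Poly.const _)
  refine ⟨_, polyTime_test hF ht, fun x => ?_⟩
  obtain ⟨hwf, htu, hc, _, _, hfeas, hiff⟩ := hfL x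
  obtain ⟨_, h2, h3⟩ := hS (f x) hwf htu (hc.le.trans hp)
  rw [hiff]
  constructor
  · intro hU
    rw [h2 hU]
    simp
  · intro hy
    by_contra hU
    obtain ⟨y, hy', _⟩ := h3 hfeas hU
    rw [hy'] at hy
    simp only [List.cons.injEq, decide_eq_true_eq, and_true] at hy
    have := bits_injective hy
    simp at this

end Pool.Agent.H39.QP
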