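import Mathlib

/-!
# Difference matrices are totally unimodular
-/

set_option autoImplicit false

namespace Pool.Agent.H39.QP

open Matrix

variable {R ν : Type}

/-- each row is the difference of two unit vectors -/
def diffMat [DecidableEq ν] (a b : R → ν) : Matrix R ν ℤ :=
  Matrix.of fun r v => (if v = a r then 1 else 0) - (if v = b r then 1 else 0)

theorem sign_mul {x y : ℤ} (hx : x ∈ Set.range (SignType.cast : SignType → ℤ))
    (hy : y ∈ Set.range (SignType.cast : SignType → ℤ)) :
    x * y ∈ Set.range (SignType.cast : SignType → ℤ) := by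
  obtain ⟨s, rfl⟩ := hx
  obtain ⟨t, rfl⟩ := hy
  exact ⟨s * t, by simp⟩

theorem sign_pow (n : ℕ) : ((-1 : ℤ) ^ n) ∈ Set.range (SignType.cast : SignType → ℤ) := by
  rcases neg_one_pow_eq_or ℤ n with h | h
  · exact ⟨1, by simp [h]⟩
  · exact ⟨-1, by simp [h]⟩

theorem diffMat_tu [DecidableEq ν] (a b : R → ν) : (diffMat a b).IsTotallyUnimodular := by
  intro k f g hf hg
  induction k with
  | zero => exact ⟨1, by simp⟩
  | succ k ih =>
    by_cases hrow : ∃ i, (∀ j, g j ≠ a (f i)) ∨ (∀ j, g j ≠ b (f i))
    · obtain ⟨i, hi⟩ := hrow
      -- the row `i` has at most one nonzero entry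
      obtain ⟨j0, hj0⟩ : ∃ j0, ∀ j, j ≠ j0 → (diffMat a b).submatrix f g i j = 0 := by
        rcases hi with hi | hi
        · by_cases hb : ∃ j, g j = b (f i)
          · obtain ⟨j0, hj0⟩ := hb
            refine ⟨j0, fun j hj => ?_⟩
            have h2 : g j ≠ b (f i) := fun h => hj (hg (h.trans hj0.symm))
            simp [diffMat, hi j, h2]
          · push Not at hb
            exact ⟨0, fun j _ => by simp [diffMat, hi j, hb j]⟩
        · by_cases hb : ∃ j, g j = a (f i)
          · obtain ⟨j0, hj0⟩ := hb
            refine ⟨j0, fun j hj => ?_⟩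
            have h2 : g j ≠ a (f i) := fun h => hj (hg (h.trans hj0.symm))
            simp [diffMat, hi j, h2]
          · push Not at hb
            exact ⟨0, fun j _ => by simp [diffMat, hi j, hb j]⟩
      rw [det_succ_row _ i, Finset.sum_eq_single j0]
      · refine sign_mul (sign_mul (sign_pow _) ?_) ?_
        · simp only [diffMat, submatrix_apply, of_apply]
          split_ifs
          · exact ⟨0, by simp⟩
          · exact ⟨1, by simp⟩
          · exact ⟨-1, by simp⟩
          · exact ⟨0, by simp⟩
        · exact ih _ _ (hf.comp Fin.succAbove_right_injective)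
            (hg.comp Fin.succAbove_right_injective)
      · intro j _ hj
        rw [hj0 j hj]
        ring
      · intro h
        exact absurd (Finset.mem_univ _) h
    · push Not at hrow
      refine ⟨0, ?_⟩
      rw [SignType.coe_zero, eq_comm]
      rw [← Matrix.exists_mulVec_eq_zero_iff]
      refine ⟨fun _ => 1, fun h => by simpa using congrFun h 0, ?_⟩
      funext i
      obtain ⟨⟨ja, hja⟩, ⟨jb, hjb⟩⟩ := hrow i
      simp only [mulVec, dotProduct, submatrix_apply, diffMat, of_apply, mul_one, Pi.zero_apply,
        Finset.sum_sub_distrib]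
      have h1 : ∀ c : ν, ∀ j0, g j0 = c → (∑ x, if g x = c then (1 : ℤ) else 0) = 1 := by
        intro c j0 hc
        rw [Finset.sum_eq_single j0]
        · simp [hc]
        · intro j _ hj
          rw [if_neg]
          intro h
          exact hj (hg (h.trans hc.symm))
        · intro h
          exact absurd (Finset.mem_univ _) h
      rw [h1 _ ja hja, h1 _ jb hjb]
      simp

/-- Multiplying rows by signs preserves total unimodularity. -/
theorem tu_sign {m n : Type} {A B : Matrix m n ℤ} (hA : A.IsTotallyUnimodular) (s : m → ℤ)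
    (hs : ∀ i, s i = 1 ∨ s i = -1) (hB : ∀ i j, B i j = s i * A i j) :
    B.IsTotallyUnimodular := by
  intro k f g hf hg
  have h1 : B.submatrix f g = Matrix.of fun i j => s (f i) * (A.submatrix f g) i j := by
    ext i j
    simp [hB]
  rw [h1, det_mul_column]
  refine sign_mul ?_ (hA k f g hf hg)
  have : ∀ S : Finset (Fin k), (∏ i ∈ S, s (f i)) ∈ Set.range (SignType.cast : SignType → ℤ) := by
    intro S
    classical
    induction S using Finset.induction_on with
    | empty => exact ⟨1, by simp⟩
    | insert a S ha ih =>
      rw [Finset.prod_insert ha]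
      refine sign_mul ?_ ih
      rcases hs (f a) with h | h
      · exact ⟨1, by simp [h]⟩
      · exact ⟨-1, by simp [h]⟩
  exact this _

end Pool.Agent.H39.QP
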