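import Pool.Agent.H39.QP.Defs
import Pool.Agent.H39.QP.TU

/-!
# Quadratic forms in potential differences as instances
-/

set_option autoImplicit false

namespace Pool.Agent.H39.QP

open Pool.Agent.NPC Matrix

/-- names of nodes -/
abbrev Nd := ℕ × ℕ

/-- nodes, pairs `(a, b)` for the constraints `π a ≤ π b`, weighted pairs for the terms
`weight * (π a - π b) ^ 2` -/
abbrev Gr := List Nd × List (Nd × Nd) × List ((Nd × Nd) × ℤ)

/-- difference of two unit vectors -/
def dif (a b v : Nd) : ℤ := if v = a then (if v = b then 0 else 1) else (if v = b then -1 else 0)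

theorem dif_eq (a b v : Nd) : dif a b v = (if v = a then 1 else 0) - (if v = b then 1 else 0) := by
  unfold dif
  split_ifs <;> simp

/-- row of an order constraint -/
def ordRow (G : Gr) (e : Nd × Nd) : List ℤ :=
  G.1.map (fun v => dif e.1 e.2 v) ++ G.2.2.map (fun _ => (0 : ℤ))

/-- first row of an edge -/
def posRow (G : Gr) (e : ((Nd × Nd) × ℤ) × ℕ) : List ℤ :=
  G.1.map (fun v => dif e.1.1.1 e.1.1.2 v) ++
    (List.range G.2.2.length).map (fun k => if k = e.2 then (-1 : ℤ) else 0)

/-- second row of an edge -/
def negRow (G : Gr) (e : ((Nd × Nd) × ℤ) × ℕ) : List ℤ :=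
  G.1.map (fun v => dif e.1.1.2 e.1.1.1 v) ++
    (List.range G.2.2.length).map (fun k => if k = e.2 then (1 : ℤ) else 0)

/-- all rows -/
def rowsOf (G : Gr) : List (List ℤ) :=
  G.2.1.map (fun e => ordRow G e) ++
    (G.2.2.zipIdx.map (fun e => posRow G e) ++ G.2.2.zipIdx.map (fun e => negRow G e))

/-- the instance -/
def compile (G : Gr) : Instance where
  W := rowsOf G
  w := (rowsOf G).map (fun _ => (0 : ℤ))
  h := G.1.map (fun _ => (0 : ℤ)) ++ G.2.2.map (fun _ => (0 : ℤ))
  c := G.1.map (fun _ => (0 : ℤ)) ++ G.2.2.map (fun e => e.2)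

/-- the potentials and the differences -/
def vec (G : Gr) (π : Nd → ℤ) : List ℤ :=
  G.1.map π ++ G.2.2.map (fun e => π e.1.1 - π e.1.2)

/-- the quadratic form -/
def Qf (G : Gr) (π : Nd → ℤ) : ℤ := (G.2.2.map fun e => e.2 * (π e.1.1 - π e.1.2) ^ 2).sum

/-- good descriptions -/
structure Good (G : Gr) : Prop where
  nodup : G.1.Nodup
  ord : ∀ e ∈ G.2.1, e.1 ∈ G.1 ∧ e.2 ∈ G.1
  edges : ∀ e ∈ G.2.2, e.1.1 ∈ G.1 ∧ e.1.2 ∈ G.1
  ne : G.1 ≠ []
  ne' : G.2.1 ≠ []

theorem compile_n (G : Gr) : (compile G).n = G.1.length + G.2.2.length := by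
  simp [compile, Instance.n]

theorem row_length (G : Gr) : ∀ r ∈ rowsOf G, r.length = G.1.length + G.2.2.length := by
  intro r hr
  simp only [rowsOf, List.mem_append, List.mem_map] at hr
  rcases hr with ⟨e, _, rfl⟩ | ⟨e, _, rfl⟩ | ⟨e, _, rfl⟩ <;>
    simp [ordRow, posRow, negRow]

theorem compile_wf (G : Gr) (hG : Good G) : (compile G).WF where
  one_le_n := by
    rw [compile_n]
    have := List.length_pos_iff.2 hG.ne
    omega
  one_le_m := by
    have := List.length_pos_iff.2 hG.ne'
    simp only [compile, Instance.m, rowsOf, List.length_map, List.length_append]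
    omega
  rows := by simp [compile, Instance.m]
  cols := fun r hr => by
    rw [compile_n]
    exact row_length G r hr
  c_len := by
    rw [compile_n]
    simp [compile]

theorem getD_append_map {α : Type} (l : List α) (f : α → ℤ) (t : List ℤ) (j : ℕ) (d : α) :
    (l.map f ++ t).getD j 0 = if j < l.length then f (l.getD j d) else t.getD (j - l.length) 0 := by
  split_ifs with h
  · rw [List.getD_append _ _ _ _ (by simpa using h)]
    simp [List.getD_eq_getElem?_getD, h]
  · rw [List.getD_append_right _ _ _ _ (by simpa using h)]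
    simp

theorem compile_tu (G : Gr) : (compile G).matrix.IsTotallyUnimodular := by
  let R := (Nd × Nd) ⊕ Fin G.2.2.length
  let aa : R → Nd := Sum.elim (fun e => e.1) (fun k => (G.2.2[k]).1.2)
  let bb : R → Nd := Sum.elim (fun e => e.2) (fun k => (G.2.2[k]).1.1)
  have hA : (fromCols (diffMat aa bb) (1 : Matrix R R ℤ)).IsTotallyUnimodular :=
    (diffMat_tu aa bb).fromCols_one
  have hn := compile_n G
  let ψ : Fin (compile G).n → Nd ⊕ R := fun j =>
    if h : j.1 < G.1.length then Sum.inl (G.1.getD j.1 (0, 0)) else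
      Sum.inr (Sum.inr ⟨j.1 - G.1.length, by have := j.2; omega⟩)
  have key : ∀ i : Fin (compile G).m, ∃ (r : R) (s : ℤ), (s = 1 ∨ s = -1) ∧
      ∀ j, (compile G).matrix i j = s * (fromCols (diffMat aa bb) (1 : Matrix R R ℤ)) r (ψ j) := by
    intro i
    have hi : i.1 < (rowsOf G).length := by
      have := i.2
      simpa [compile, Instance.m] using this
    have hrow : (compile G).W.getD i.1 [] = (rowsOf G)[i.1] := by
      simp [compile, List.getD_eq_getElem?_getD, hi]
    have hmem : (rowsOf G)[i.1] ∈ rowsOf G := List.getElem_mem hi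
    generalize (rowsOf G)[i.1] = row at hrow hmem
    simp only [rowsOf, List.mem_append, List.mem_map] at hmem
    rcases hmem with ⟨e, _, rfl⟩ | ⟨e, he, rfl⟩ | ⟨e, he, rfl⟩
    · refine ⟨Sum.inl e, 1, Or.inl rfl, fun j => ?_⟩
      simp only [Instance.matrix, of_apply, hrow, ordRow, one_mul]
      rw [getD_append_map _ _ _ _ (0, 0)]
      by_cases h : j.1 < G.1.length
      · simp [ψ, h, diffMat, aa, bb, dif_eq]
        rfl
      · have h0 : (G.2.2.map (fun _ => (0 : ℤ))).getD (j.1 - G.1.length) 0 = 0 := by
          simp only [List.getD_eq_getElem?_getD, List.getElem?_map]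
          cases G.2.2[j.1 - G.1.length]? <;> rfl
        rw [if_neg h, h0]
        simp only [ψ, h, dif_neg, not_false_eq_true, fromCols_apply_inr]
        rw [Matrix.one_apply_ne]
        simp
    · obtain ⟨⟨⟨a, b⟩, wt⟩, k⟩ := e
      rw [List.mem_zipIdx_iff_getElem?] at he
      obtain ⟨hk, hke⟩ := List.getElem?_eq_some_iff.1 he
      refine ⟨Sum.inr ⟨k, hk⟩, -1, Or.inr rfl, fun j => ?_⟩
      simp only [Instance.matrix, of_apply, hrow, posRow]
      rw [getD_append_map _ _ _ _ (0, 0)]
      by_cases h : j.1 < G.1.length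
      · simp only at hke
        simp [ψ, h, diffMat, aa, bb, dif_eq, hke]
      · have hj : j.1 - G.1.length < G.2.2.length := by have := j.2; omega
        rw [if_neg h]
        have h0 : ((List.range G.2.2.length).map (fun k' => if k' = k then (-1 : ℤ) else 0)).getD
            (j.1 - G.1.length) 0 = if j.1 - G.1.length = k then (-1 : ℤ) else 0 := by
          simp [List.getD_eq_getElem?_getD, hj]
        rw [h0]
        simp only [ψ, h, dif_neg, not_false_eq_true, fromCols_apply_inr, Matrix.one_apply]
        by_cases h2 : j.1 - G.1.length = k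
        · subst h2; simp
        · have h3 : ¬ (k = j.1 - G.1.length) := fun h => h2 h.symm
          simp [h2, h3]
    · obtain ⟨⟨⟨a, b⟩, wt⟩, k⟩ := e
      rw [List.mem_zipIdx_iff_getElem?] at he
      obtain ⟨hk, hke⟩ := List.getElem?_eq_some_iff.1 he
      refine ⟨Sum.inr ⟨k, hk⟩, 1, Or.inl rfl, fun j => ?_⟩
      simp only [Instance.matrix, of_apply, hrow, negRow, one_mul]
      rw [getD_append_map _ _ _ _ (0, 0)]
      by_cases h : j.1 < G.1.length
      · simp only at hke
        simp [ψ, h, diffMat, aa, bb, dif_eq, hke]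
      · have hj : j.1 - G.1.length < G.2.2.length := by have := j.2; omega
        rw [if_neg h]
        have h0 : ((List.range G.2.2.length).map (fun k' => if k' = k then (1 : ℤ) else 0)).getD
            (j.1 - G.1.length) 0 = if j.1 - G.1.length = k then (1 : ℤ) else 0 := by
          simp [List.getD_eq_getElem?_getD, hj]
        rw [h0]
        simp only [ψ, h, dif_neg, not_false_eq_true, fromCols_apply_inr, Matrix.one_apply]
        by_cases h2 : j.1 - G.1.length = k
        · subst h2; simp
        · have h3 : ¬ (k = j.1 - G.1.length) := fun h => h2 h.symm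
          simp [h2, h3]
  choose φ s hs hφ using key
  exact tu_sign (hA.submatrix φ ψ) s hs (fun i j => by simp [hφ i j])

theorem dot_append {u x v y : List ℤ} (h : u.length = x.length) :
    dot (u ++ v) (x ++ y) = dot u x + dot v y := by
  unfold dot
  rw [List.zipWith_append h, List.sum_append]

theorem dot_map_map {α : Type} (l : List α) (f g : α → ℤ) :
    dot (l.map f) (l.map g) = (l.map fun v => f v * g v).sum := by
  unfold dot
  induction l with
  | nil => rfl
  | cons a l ih => simp only [List.map_cons, List.zipWith_cons_cons, List.sum_cons, ih]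

theorem sum_ind {α : Type} [DecidableEq α] (l : List α) (hl : l.Nodup) (a : α) (g : α → ℤ) :
    (l.map fun v => (if v = a then 1 else 0) * g v).sum = if a ∈ l then g a else 0 := by
  induction l with
  | nil => simp
  | cons b l ih =>
    rw [List.nodup_cons] at hl
    rw [List.map_cons, List.sum_cons, ih hl.2]
    by_cases h : b = a
    · subst h
      simp [hl.1]
    · have h' : ¬ a = b := fun h2 => h h2.symm
      simp [h, h']

theorem sum_map_sub' {α : Type} (l : List α) (f g : α → ℤ) :
    (l.map fun v => f v - g v).sum = (l.map f).sum - (l.map g).sum := by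
  induction l with
  | nil => rfl
  | cons a l ih => simp only [List.map_cons, List.sum_cons, ih]; ring

theorem sum_dif (l : List Nd) (hl : l.Nodup) (a b : Nd) (ha : a ∈ l) (hb : b ∈ l) (π : Nd → ℤ) :
    (l.map fun v => dif a b v * π v).sum = π a - π b := by
  have h1 : (l.map fun v => dif a b v * π v).sum =
      (l.map fun v => (if v = a then 1 else 0) * π v).sum -
        (l.map fun v => (if v = b then 1 else 0) * π v).sum := by
    rw [← sum_map_sub']
    congr 1
    refine List.map_congr_left fun v _ => ?_
    rw [dif_eq]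
    ring
  rw [h1, sum_ind l hl, sum_ind l hl, if_pos ha, if_pos hb]

theorem eq_map_range (z : List ℤ) (E : ℕ) (h : z.length = E) :
    z = (List.range E).map fun k => z.getD k 0 := by
  subst h
  apply List.ext_getElem
  · simp
  · intro i h1 h2
    simp [List.getD_eq_getElem?_getD, h1]

theorem dot_range (z : List ℤ) (E k : ℕ) (h : z.length = E) (hk : k < E) (s : ℤ) :
    dot ((List.range E).map (fun k' => if k' = k then s else 0)) z = s * z.getD k 0 := by
  rw [eq_map_range z E h]
  rw [dot_map_map]
  have h1 : ((List.range E).map fun v => (if v = k then s else 0) * z.getD v 0) =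
      (List.range E).map fun v => (if v = k then (1 : ℤ) else 0) * (s * z.getD v 0) := by
    refine List.map_congr_left fun v _ => ?_
    split_ifs <;> ring
  rw [h1, sum_ind _ List.nodup_range, if_pos (List.mem_range.2 hk)]
  congr 1
  simp [List.getD_eq_getElem?_getD, hk]

theorem dot_zero {α : Type} (l : List α) (z : List ℤ) : dot (l.map fun _ => (0 : ℤ)) z = 0 := by
  unfold dot
  induction l generalizing z with
  | nil => rfl
  | cons a l ih =>
    cases z with
    | nil => rfl
    | cons b z =>
      rw [List.map_cons, List.zipWith_cons_cons, List.sum_cons, ih]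
      simp

theorem exists_map (l : List Nd) (hl : l.Nodup) (y : List ℤ) (h : y.length = l.length) :
    ∃ π : Nd → ℤ, y = l.map π := by
  refine ⟨fun v => y.getD (l.idxOf v) 0, ?_⟩
  apply List.ext_getElem
  · simpa using h
  · intro i h1 h2
    have h3 : i < l.length := by omega
    rw [List.getElem_map, hl.idxOf_getElem i h3]
    simp [List.getD_eq_getElem?_getD, h1]

theorem feas_rows (G : Gr) (x : List ℤ) : (compile G).Feasible x ↔
    x.length = G.1.length + G.2.2.length ∧ ∀ r ∈ rowsOf G, dot r x ≤ 0 := by
  unfold Instance.Feasible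
  rw [compile_n]
  refine and_congr_right fun _ => ?_
  change List.Forall₂ _ (rowsOf G) ((rowsOf G).map fun _ => 0) ↔ _
  rw [List.forall₂_map_right_iff, List.forall₂_same]

theorem feas_iff (G : Gr) (hG : Good G) (x : List ℤ) : (compile G).Feasible x ↔
    ∃ π : Nd → ℤ, x = vec G π ∧ ∀ e ∈ G.2.1, π e.1 ≤ π e.2 := by
  rw [feas_rows]
  constructor
  · rintro ⟨hlen, hr⟩
    have hx : x = x.take G.1.length ++ x.drop G.1.length := (List.take_append_drop _ _).symm
    have hl1 : (x.take G.1.length).length = G.1.length := by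
      rw [List.length_take]; omega
    have hl2 : (x.drop G.1.length).length = G.2.2.length := by
      rw [List.length_drop]; omega
    obtain ⟨π, hπ⟩ := exists_map G.1 hG.nodup _ hl1
    set z := x.drop G.1.length with hz
    rw [hπ] at hx
    have hz2 : z = G.2.2.map (fun e => π e.1.1 - π e.1.2) := by
      apply List.ext_getElem
      · simpa using hl2
      · intro k h1 h2
        have hk : k < G.2.2.length := by simpa using h2
        have hmem : (G.2.2[k], k) ∈ G.2.2.zipIdx := by
          rw [List.mem_zipIdx_iff_getElem?]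
          simp [hk]
        have he := hG.edges _ (List.getElem_mem hk)
        have g1 := hr (posRow G (G.2.2[k], k)) (by
          simp only [rowsOf, List.mem_append, List.mem_map]
          exact Or.inr (Or.inl ⟨_, hmem, rfl⟩))
        have g2 := hr (negRow G (G.2.2[k], k)) (by
          simp only [rowsOf, List.mem_append, List.mem_map]
          exact Or.inr (Or.inr ⟨_, hmem, rfl⟩))
        rw [hx, posRow, dot_append (by simp), dot_map_map, sum_dif _ hG.nodup _ _ he.1 he.2,
          dot_range z _ k hl2 hk] at g1
        rw [hx, negRow, dot_append (by simp), dot_map_map, sum_dif _ hG.nodup _ _ he.2 he.1,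
          dot_range z _ k hl2 hk] at g2
        have h3 : z.getD k 0 = z[k] := by simp [List.getD_eq_getElem?_getD, h1]
        rw [h3] at g1 g2
        rw [List.getElem_map]
        linarith
    refine ⟨π, by rw [hx, hz2]; rfl, fun e he => ?_⟩
    have g := hr (ordRow G e) (by
      simp only [rowsOf, List.mem_append, List.mem_map]
      exact Or.inl ⟨_, he, rfl⟩)
    have h2 := hG.ord e he
    rw [hx, ordRow, dot_append (by simp), dot_map_map, sum_dif _ hG.nodup _ _ h2.1 h2.2,
      dot_zero] at g
    linarith
  · rintro ⟨π, rfl, ho⟩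
    refine ⟨by simp [vec], fun r hr => ?_⟩
    simp only [rowsOf, List.mem_append, List.mem_map] at hr
    have hlz : (G.2.2.map (fun e => π e.1.1 - π e.1.2)).length = G.2.2.length := by simp
    rcases hr with ⟨e, he, rfl⟩ | ⟨⟨e, k⟩, he, rfl⟩ | ⟨⟨e, k⟩, he, rfl⟩
    · have h2 := hG.ord e he
      rw [vec, ordRow, dot_append (by simp), dot_map_map, sum_dif _ hG.nodup _ _ h2.1 h2.2,
        dot_zero]
      linarith [ho e he]
    · rw [List.mem_zipIdx_iff_getElem?] at he
      obtain ⟨hk, hke⟩ := List.getElem?_eq_some_iff.1 he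
      simp only at hk hke
      have h2 := hG.edges e (by rw [← hke]; exact List.getElem_mem hk)
      rw [vec, posRow, dot_append (by simp), dot_map_map, sum_dif _ hG.nodup _ _ h2.1 h2.2,
        dot_range _ _ k hlz hk]
      simp [List.getD_eq_getElem?_getD, hk, hke]
    · rw [List.mem_zipIdx_iff_getElem?] at he
      obtain ⟨hk, hke⟩ := List.getElem?_eq_some_iff.1 he
      simp only at hk hke
      have h2 := hG.edges e (by rw [← hke]; exact List.getElem_mem hk)
      rw [vec, negRow, dot_append (by simp), dot_map_map, sum_dif _ hG.nodup _ _ h2.2 h2.1,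
        dot_range _ _ k hlz hk]
      simp [List.getD_eq_getElem?_getD, hk, hke]

theorem cost_vec (G : Gr) (π : Nd → ℤ) : (compile G).cost (vec G π) = Qf G π := by
  unfold Instance.cost
  have h1 : dot (compile G).h (vec G π) = 0 := by
    change dot (G.1.map (fun _ => (0 : ℤ)) ++ G.2.2.map (fun _ => (0 : ℤ))) _ = 0
    rw [vec, dot_append (by simp), dot_zero, dot_zero]
    rfl
  rw [h1, add_zero]
  change dot (G.1.map (fun _ => (0 : ℤ)) ++ G.2.2.map (fun e => e.2)) _ = _
  rw [vec, List.map_append, dot_append (by simp), dot_zero, zero_add, List.map_map, dot_map_map]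
  rfl

theorem unbounded_iff (G : Gr) (hG : Good G) : (compile G).Unbounded ↔
    ∃ π : Nd → ℤ, (∀ e ∈ G.2.1, π e.1 ≤ π e.2) ∧ Qf G π < 0 := by
  constructor
  · intro h
    obtain ⟨x, hx, hc⟩ := h 0
    obtain ⟨π, rfl, ho⟩ := (feas_iff G hG x).1 hx
    rw [cost_vec] at hc
    exact ⟨π, ho, hc⟩
  · rintro ⟨π, ho, hQ⟩ B
    obtain ⟨t, ht⟩ : ∃ t : ℤ, t = |B| + 1 := ⟨_, rfl⟩
    have ht1 : 1 ≤ t := by have := abs_nonneg B; omega
    refine ⟨vec G (fun v => t * π v), (feas_iff G hG _).2 ⟨_, rfl, fun e he => ?_⟩, ?_⟩
    · exact mul_le_mul_of_nonneg_left (ho e he) (by omega)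
    · rw [cost_vec]
      have h1 : Qf G (fun v => t * π v) = t ^ 2 * Qf G π := by
        unfold Qf
        rw [← List.sum_map_mul_left]
        congr 1
        refine List.map_congr_left fun e _ => ?_
        ring
      rw [h1]
      have h2 : -|B| ≤ B := neg_abs_le B
      nlinarith

theorem feas_zero (G : Gr) (hG : Good G) : ∃ x, (compile G).Feasible x :=
  ⟨vec G (fun _ => 0), (feas_iff G hG _).2 ⟨_, rfl, fun _ _ => le_rfl⟩⟩

theorem concave_compile (G : Gr) :
    (compile G).concave = (G.2.2.map fun e => e.2).countP fun a => decide (a < 0) := by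
  unfold Instance.concave compile
  simp only [List.countP_append]
  have : (G.1.map fun _ => (0 : ℤ)).countP (fun a => decide (a < 0)) = 0 := by
    rw [List.countP_eq_zero]
    intro a ha
    rw [List.mem_map] at ha
    obtain ⟨_, _, rfl⟩ := ha
    simp
  omega

end Pool.Agent.H39.QP
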