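import Pool.Agent.H39.QP.Yes
import Pool.Graph.R_seed8.H671R2.SubsetSum

/-!
# Subset sum instances as quadratic programs
-/

set_option autoImplicit false

namespace Pool.Agent.H39.QP

open Pool.Agent.NPC

/-- scale -/
def xΛ (x : List ℕ × ℕ) : ℕ := x.1.sum + x.2 + 1
/-- gap -/
def xg (x : List ℕ × ℕ) : ℕ := 2 * x.1.length + 2
/-- lengths -/
def xLL (x : List ℕ × ℕ) (c : Bool) (i : ℕ) : ℕ :=
  xΛ x * (2 ^ (min (i + 1) x.1.length) - 1) +
    (if c then 2 * x.2 else (((List.range x.1.length).filter fun k => k ≤ i).map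
      fun k => x.1.getD k 0).sum)
/-- bound -/
def xB (x : List ℕ × ℕ) : ℕ := xg x * (2 * xΛ x * 2 ^ x.1.length)

theorem sum_range_list (n : ℕ) (f : ℕ → ℕ) :
    ((List.range n).map f).sum = ∑ i ∈ Finset.range n, f i := by
  induction n with
  | zero => rfl
  | succ n ih => rw [List.range_succ, List.map_append, List.sum_append, ih,
      Finset.sum_range_succ]; simp

theorem sum_filter_range (n i : ℕ) (f : ℕ → ℕ) :
    (((List.range n).filter fun k => k ≤ i).map f).sum =
      ∑ k ∈ (Finset.range n).filter (fun k => k ≤ i), f k := by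
  induction n with
  | zero => rfl
  | succ n ih =>
    rw [List.range_succ, List.filter_append, List.map_append, List.sum_append, ih,
      Finset.range_add_one, Finset.filter_insert]
    by_cases h : n ≤ i
    · rw [if_pos h, Finset.sum_insert (by simp)]
      simp [h, add_comm]
    · rw [if_neg h]
      simp [h]

theorem sum_filter_lt (n i : ℕ) (hi : i < n) (f : ℕ → ℕ) :
    (((List.range n).filter fun k => k ≤ i).map f).sum = ∑ k ∈ Finset.range (i + 1), f k := by
  rw [sum_filter_range]
  congr 1
  ext k
  simp only [Finset.mem_filter, Finset.mem_range]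
  omega

theorem sum_getD_le (l : List ℕ) (i : ℕ) : ∑ k ∈ Finset.range i, l.getD k 0 ≤ l.sum := by
  induction l generalizing i with
  | nil => simp
  | cons a l ih =>
    cases i with
    | zero => simp
    | succ i =>
      rw [Finset.sum_range_succ', List.sum_cons]
      have := ih i
      simp only [List.getD_cons_succ, List.getD_cons_zero]
      omega

theorem sum_pow_two (Λ i : ℕ) : ∑ k ∈ Finset.range i, Λ * 2 ^ k = Λ * (2 ^ i - 1) := by
  rw [← Finset.mul_sum]
  congr 1
  have h := Nat.geomSum_eq (le_refl 2) i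
  rw [h]
  simp

/-- the parameters for an instance of subset sum -/
def parOf (x : List ℕ × ℕ) : Par x.1.length (fun k => x.1.getD k 0) x.2 where
  Λ := xΛ x
  g := xg x
  LL := xLL x
  B := xB x
  hΛ := by
    intro i
    have := sum_getD_le x.1 i
    unfold xΛ
    omega
  hg := le_rfl
  hLL0 := by
    intro i hi
    unfold xLL
    rw [Finset.sum_add_distrib, sum_pow_two, min_eq_left (by omega : i + 1 ≤ x.1.length)]
    simp only [Bool.false_eq_true, if_false]
    rw [sum_filter_lt _ _ hi]
  hLL1 := by
    intro i hi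
    unfold xLL
    rw [sum_pow_two, min_eq_left (by omega : i + 1 ≤ x.1.length)]
    simp only [if_true]
    ring
  hB := by
    intro c i hi
    unfold xB
    refine Nat.mul_le_mul_left _ ?_
    unfold xLL
    rw [min_eq_left (by omega : i + 1 ≤ x.1.length)]
    have h1 : 2 ^ (i + 1) ≤ 2 ^ x.1.length := Nat.pow_le_pow_right (by norm_num) hi
    have h2 : xΛ x * (2 ^ (i + 1) - 1) ≤ xΛ x * (2 ^ x.1.length - 1) :=
      Nat.mul_le_mul_left _ (Nat.sub_le_sub_right h1 1)
    have h3 : 1 ≤ 2 ^ x.1.length := Nat.one_le_two_pow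
    have h4 : xΛ x * (2 ^ x.1.length - 1) + xΛ x = xΛ x * 2 ^ x.1.length := by
      obtain ⟨q, hq⟩ : ∃ q, 2 ^ x.1.length = q + 1 := ⟨2 ^ x.1.length - 1, by omega⟩
      rw [hq]
      simp only [Nat.add_sub_cancel]
      ring
    have h5 : xΛ x ≤ xΛ x * 2 ^ x.1.length := Nat.le_mul_of_pos_right _ (by omega)
    have h6 : 2 * xΛ x * 2 ^ x.1.length = xΛ x * 2 ^ x.1.length + xΛ x * 2 ^ x.1.length := by
      ring
    rw [h6]
    cases c
    · simp only [Bool.false_eq_true, if_false]
      rw [sum_filter_lt _ _ hi]
      have h7 := sum_getD_le x.1 (i + 1)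
      have h8 : x.1.sum ≤ xΛ x := by unfold xΛ; omega
      omega
    · simp only [if_true]
      have h8 : x.2 ≤ xΛ x := by unfold xΛ; omega
      omega
  hBs := by
    unfold xB
    have h3 : 1 ≤ 2 ^ x.1.length := Nat.one_le_two_pow
    have h8 : x.2 ≤ xΛ x := by unfold xΛ; omega
    calc 2 * xg x * x.2 = xg x * (2 * x.2 * 1) := by ring
      _ ≤ xg x * (2 * xΛ x * 2 ^ x.1.length) := by
        refine Nat.mul_le_mul_left _ (Nat.mul_le_mul (by omega) h3)
  hB1 := by
    unfold xB xg xΛ
    have h3 : 0 < 2 ^ x.1.length := Nat.two_pow_pos _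
    refine Nat.succ_le_of_lt ?_
    positivity

theorem subset_iff (l : List ℕ) (s : ℕ) : (∃ t : List ℕ, t.Sublist l ∧ t.sum = s) ↔
    ∃ S ⊆ Finset.range l.length, ∑ k ∈ S, l.getD k 0 = s := by
  induction l generalizing s with
  | nil =>
    constructor
    · rintro ⟨t, ht, rfl⟩
      rw [List.sublist_nil] at ht
      subst ht
      exact ⟨∅, by simp, by simp⟩
    · rintro ⟨S, hS, hs⟩
      have : S = ∅ := by simpa using hS
      subst this
      exact ⟨[], List.Sublist.refl _, by simpa using hs⟩
  | cons a l ih =>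
    constructor
    · rintro ⟨t, ht, rfl⟩
      cases ht with
      | cons _ ht =>
        obtain ⟨S, hS, hs⟩ := (ih t.sum).1 ⟨t, ht, rfl⟩
        refine ⟨S.map ⟨Nat.succ, Nat.succ_injective⟩, ?_, ?_⟩
        · intro k hk
          rw [Finset.mem_map] at hk
          obtain ⟨j, hj, rfl⟩ := hk
          have := Finset.mem_range.1 (hS hj)
          simp only [Function.Embedding.coeFn_mk, Finset.mem_range, List.length_cons]
          omega
        · rw [Finset.sum_map]
          exact hs
      | @cons_cons t' _ _ ht =>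
        obtain ⟨S, hS, hs⟩ := (ih t'.sum).1 ⟨t', ht, rfl⟩
        refine ⟨insert 0 (S.map ⟨Nat.succ, Nat.succ_injective⟩), ?_, ?_⟩
        · intro k hk
          rw [Finset.mem_insert, Finset.mem_map] at hk
          rcases hk with rfl | ⟨j, hj, rfl⟩
          · simp
          · have := Finset.mem_range.1 (hS hj)
            simp only [Function.Embedding.coeFn_mk, Finset.mem_range, List.length_cons]
            omega
        · rw [Finset.sum_insert (by simp), Finset.sum_map, List.sum_cons]
          simp only [List.getD_cons_zero]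
          congr 1
    · rintro ⟨S, hS, hs⟩
      obtain ⟨S', hS'⟩ : ∃ S' : Finset ℕ, S' = (Finset.range l.length).filter
          fun k => k + 1 ∈ S := ⟨_, rfl⟩
      have hsum : ∑ k ∈ S, (a :: l).getD k 0 = (if 0 ∈ S then a else 0) +
          ∑ k ∈ S', l.getD k 0 := by
        have h1 : S = (Finset.range (l.length + 1)).filter fun k => k ∈ S := by
          ext k
          simp only [Finset.mem_filter, Finset.mem_range]
          constructor
          · intro hk
            have := Finset.mem_range.1 (hS hk)
            exact ⟨by simpa using this, hk⟩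
          · exact fun h => h.2
        rw [h1, Finset.sum_filter, Finset.sum_range_succ', hS', Finset.sum_filter]
        simp only [← h1, List.getD_cons_succ, List.getD_cons_zero]
        rw [add_comm]
      rw [hsum] at hs
      obtain ⟨t, ht, hts⟩ := (ih (∑ k ∈ S', l.getD k 0)).2 ⟨S', by
        rw [hS']; exact Finset.filter_subset _ _, rfl⟩
      by_cases h0 : 0 ∈ S
      · rw [if_pos h0] at hs
        exact ⟨a :: t, ht.cons_cons a, by rw [List.sum_cons, hts]; exact hs⟩
      · rw [if_neg h0, zero_add] at hs
        exact ⟨t, ht.cons a, by rw [hts]; exact hs⟩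

/-- the graph of an instance -/
def grx (x : List ℕ × ℕ) : Gr := (parOf x).gr

theorem good_grx (x : List ℕ × ℕ) : Good (grx x) := good_grOf _ _ _ _ _ _ _

theorem correct (x : List ℕ × ℕ) : R671.SS.SubsetSum x ↔ (compile (grx x)).Unbounded := by
  rw [unbounded_iff _ (good_grx x)]
  unfold R671.SS.SubsetSum
  rw [subset_iff]
  constructor
  · rintro ⟨S, hS, hs⟩
    exact (parOf x).yes_instance S hS hs
  · rintro ⟨π, ho, hQ⟩
    exact (parOf x).no_instance π ho hQ

theorem concave_eq (x : List ℕ × ℕ) : (compile (grx x)).concave = 2 := by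
  rw [concave_compile]
  change ((edgesOf _ _ _ _ _ _ _).map fun e => e.2).countP _ = 2
  unfold edgesOf
  have hst : ∀ (U K κ : ℕ) (c : Bool) (n : ℕ) (F : ℕ → ℕ),
      (((List.range n).flatMap (fun i => stageEdges U K (F i) c i)).map
        fun e => e.2).countP (fun a => decide (a < 0)) = 0 := by
    intro U K κ c n F
    rw [List.countP_eq_zero]
    intro a ha
    simp only [List.mem_map, List.mem_flatMap, List.mem_range, stageEdges, List.mem_cons,
      List.not_mem_nil, or_false] at ha
    obtain ⟨e, ⟨i, _, he⟩, rfl⟩ := ha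
    have h0 : ∀ m : ℕ, ¬ decide (((m : ℕ) : ℤ) < 0) = true := by
      intro m; simp
    rcases he with rfl | rfl | rfl | rfl | rfl | rfl | rfl | rfl | rfl | rfl <;> exact h0 _
  rw [List.map_append, List.map_append, List.countP_append, List.countP_append,
    hst _ _ 0 false _ ((parOf x).κ false), hst _ _ 0 true _ ((parOf x).κ true)]
  have hU : 0 < (parOf x).U := (parOf x).U_pos
  have h1 : (-((8 * (parOf x).U * (parOf x).U : ℕ) : ℤ)) < 0 := by
    have : 0 < 8 * (parOf x).U * (parOf x).U := by positivity
    omega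
  have h2 : (-(((parOf x).cm : ℕ) : ℤ)) < 0 := by
    have : 0 < (parOf x).cm := by unfold Par.cm; omega
    omega
  have h0 : ∀ m : ℕ, decide (((m : ℕ) : ℤ) < 0) = false := by
    intro m; simp
  simp only [List.map_cons, List.map_nil, List.countP_cons, List.countP_nil, h0, h1, h2,
    decide_true, Bool.false_eq_true, if_false, if_true]

end Pool.Agent.H39.QP
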