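import Pool.Agent.H39.QP.Energy

/-!
# Negative values of the quadratic form and subset sums
-/

set_option autoImplicit false

namespace Pool.Agent.H39.QP

/-- the parameters of the construction -/
structure Par (n : ℕ) (a : ℕ → ℕ) (s : ℕ) where
  /-- scales -/
  Λ : ℕ
  /-- gap -/
  g : ℕ
  /-- the lengths -/
  LL : Bool → ℕ → ℕ
  /-- bound -/
  B : ℕ
  hΛ : ∀ i, ∑ k ∈ Finset.range i, a k + s < Λ
  hg : 2 * n + 2 ≤ g
  hLL0 : ∀ i < n, LL false i = ∑ k ∈ Finset.range (i + 1), (Λ * 2 ^ k + a k)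
  hLL1 : ∀ i < n, LL true i = 2 * s + ∑ k ∈ Finset.range (i + 1), Λ * 2 ^ k
  hB : ∀ c, ∀ i < n, g * LL c i ≤ B
  hBs : 2 * g * s ≤ B
  hB1 : 1 ≤ B

namespace Par

variable {n : ℕ} {a : ℕ → ℕ} {s : ℕ} (A : Par n a s)

/-- capacities -/
def κ (c : Bool) (i : ℕ) : ℕ := A.g * A.LL c i
/-- capacity of the start -/
def κs : ℕ := 2 * A.g * s
/-- stiffness -/
def K : ℕ := 4 * (2 * n + 1) * (A.B + 1) ^ 2
/-- sum of all forces -/
def ctot : ℕ := ∑ i ∈ Finset.range n, (4 * A.K + 4) * A.κ false i +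
  ∑ i ∈ Finset.range n, (4 * A.K + 4) * A.κ true i + 2 * A.K * A.κs
/-- far away -/
def U : ℕ := A.ctot * A.B ^ 2 + 1
/-- positive weight -/
def cp : ℕ := A.κs ^ 2 + A.K * (∑ i ∈ Finset.range n, 2 * A.κ false i ^ 2 +
  ∑ i ∈ Finset.range n, 2 * A.κ true i ^ 2 + A.κs ^ 2)
/-- negative weight -/
def cm : ℕ := A.U * A.ctot + 1

/-- the description -/
def gr : Gr := grOf n A.U A.K A.κ A.κs A.cp A.cm

/-- step values -/
def b (c : Bool) (k : ℕ) : ℤ := A.Λ * 2 ^ k + (if c then 0 else (a k : ℤ))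

/-- offsets -/
def o (_A : Par n a s) (c : Bool) : ℤ := if c then s else 0

theorem LL_eq (c : Bool) {i : ℕ} (hi : i < n) :
    (A.LL c i : ℤ) = 2 * A.o c + ∑ k ∈ Finset.range (i + 1), A.b c k := by
  cases c
  · rw [A.hLL0 i hi]
    simp [o, b]
  · rw [A.hLL1 i hi]
    simp [o, b]

theorem b_nonneg (c : Bool) (k : ℕ) : 0 ≤ A.b c k := by
  unfold b
  cases c
  · simp only [Bool.false_eq_true, if_false]; positivity
  · simp only [if_true]; positivity

theorem b_super (c : Bool) (i : ℕ) : ∑ k ∈ Finset.range i, A.b c k ≤ A.b c i := by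
  have h1 : ∀ i : ℕ, ∑ k ∈ Finset.range i, (A.Λ : ℤ) * 2 ^ k = A.Λ * 2 ^ i - A.Λ := by
    intro i
    induction i with
    | zero => simp
    | succ i ih => rw [Finset.sum_range_succ, ih, pow_succ]; ring
  have h2 := A.hΛ i
  have h3 : ((∑ k ∈ Finset.range i, a k : ℕ) : ℤ) = ∑ k ∈ Finset.range i, (a k : ℤ) := by
    push_cast; rfl
  unfold b
  cases c
  · simp only [Bool.false_eq_true, if_false, Finset.sum_add_distrib, h1]
    rw [← h3]
    have : (0 : ℤ) ≤ a i := by positivity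
    push_cast at h2 ⊢
    omega
  · simp only [if_true, add_zero, h1]
    have : (0 : ℤ) ≤ A.Λ := by positivity
    linarith

theorem U_pos : 0 < A.U := by unfold U; omega

/-- the identity for the energy -/
theorem identity (π : Nd → ℤ) (ρ m : ℝ) (hH : (π nH : ℝ) = m + A.U * ρ)
    (hL : (π nL : ℝ) = m - A.U * ρ) (h0x : π (nX false 0) = π (nY false 0))
    (hnx : π (nX false n) = π (nX true n)) (hny : π (nY false n) = π (nY true n)) :
    ((Qf A.gr π : ℤ) : ℝ) = 4 * (A.U : ℝ) ^ 2 * (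
      (∑ i ∈ Finset.range n,
        ((((π (nX false (i + 1)) : ℝ) - π (nY false (i + 1))) -
          ((π (nX false i) : ℝ) - π (nY false i))) *
          (2 * A.κ false i * ρ - ((π (nX false i) : ℝ) - π (nY false i)) -
            ((π (nX false (i + 1)) : ℝ) - π (nY false (i + 1)))) +
          A.K * (((π (nP false i) : ℝ) - π (nY false i) - A.κ false i * ρ) ^ 2 +
            ((π (nR false i) : ℝ) - π (nY false (i + 1)) - A.κ false i * ρ) ^ 2))) +
      (∑ i ∈ Finset.range n,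
        ((((π (nX true (i + 1)) : ℝ) - π (nY true (i + 1))) -
          ((π (nX true i) : ℝ) - π (nY true i))) *
          (2 * A.κ true i * ρ - ((π (nX true i) : ℝ) - π (nY true i)) -
            ((π (nX true (i + 1)) : ℝ) - π (nY true (i + 1)))) +
          A.K * (((π (nP true i) : ℝ) - π (nY true i) - A.κ true i * ρ) ^ 2 +
            ((π (nR true i) : ℝ) - π (nY true (i + 1)) - A.κ true i * ρ) ^ 2))) +
      ((A.κs * ρ - ((π (nX true 0) : ℝ) - π (nY true 0))) *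
        (A.κs * ρ + ((π (nX true 0) : ℝ) - π (nY true 0))) +
        A.K * ((π nS : ℝ) - π (nY true 0) - A.κs * ρ) ^ 2) - ρ ^ 2) +
    2 * A.U * ((∑ i ∈ Finset.range n, GE A.K (A.κ false i) (π (nX false i)) (π (nY false i))
        (π (nP false i)) (π (nR false i)) (π (nX false (i + 1))) (π (nY false (i + 1))) m) +
      (∑ i ∈ Finset.range n, GE A.K (A.κ true i) (π (nX true i)) (π (nY true i))
        (π (nP true i)) (π (nR true i)) (π (nX true (i + 1))) (π (nY true (i + 1))) m) +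
      2 * A.K * A.κs * (((π nS : ℝ) - m) ^ 2 + ((π (nY true 0) : ℝ) - m) ^ 2)) := by
  unfold gr
  rw [Qf_grOf]
  rw [sum_SE n A.U A.K (π nH) (π nL) ρ m hH hL (fun i => (A.κ false i : ℝ))
    (fun i => (π (nX false i) : ℝ)) (fun i => (π (nY false i) : ℝ))
    (fun i => (π (nP false i) : ℝ)) (fun i => (π (nR false i) : ℝ)),
    sum_SE n A.U A.K (π nH) (π nL) ρ m hH hL (fun i => (A.κ true i : ℝ))
    (fun i => (π (nX true i) : ℝ)) (fun i => (π (nY true i) : ℝ))
    (fun i => (π (nP true i) : ℝ)) (fun i => (π (nR true i) : ℝ))]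
  have hcp : (A.cp : ℝ) = A.κs ^ 2 + A.K * (∑ i ∈ Finset.range n, 2 * (A.κ false i : ℝ) ^ 2 +
      ∑ i ∈ Finset.range n, 2 * (A.κ true i : ℝ) ^ 2 + A.κs ^ 2) := by
    unfold cp; push_cast; rfl
  have hcm : (A.cm : ℝ) = A.U * (∑ i ∈ Finset.range n, (4 * (A.K : ℝ) + 4) * A.κ false i +
      ∑ i ∈ Finset.range n, (4 * (A.K : ℝ) + 4) * A.κ true i + 2 * A.K * A.κs) + 1 := by
    unfold cm ctot; push_cast; rfl
  rw [hcp, hcm, h0x, hnx, hny, hH, hL]
  ring

set_option maxHeartbeats 1000000 in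
theorem no_instance (π : Nd → ℤ) (ho : ∀ e ∈ A.gr.2.1, π e.1 ≤ π e.2) (hQ : Qf A.gr π < 0) :
    ∃ S ⊆ Finset.range n, ∑ k ∈ S, a k = s := by
  -- the order constraints
  have hord : ∀ e ∈ ordOf n, π e.1 ≤ π e.2 := ho
  have o1 : π nL ≤ π nH := hord (nL, nH) (by simp [ordOf])
  have o2 : π (nX false 0) = π (nY false 0) :=
    le_antisymm (hord (nX false 0, nY false 0) (by simp [ordOf]))
      (hord (nY false 0, nX false 0) (by simp [ordOf]))
  have o3 : π (nY true 0) ≤ π (nX true 0) := hord (nY true 0, nX true 0) (by simp [ordOf])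
  have o4 : π (nX true 0) ≤ π nS := hord (nX true 0, nS) (by simp [ordOf])
  have o5 : π (nX false n) = π (nX true n) :=
    le_antisymm (hord (nX false n, nX true n) (by simp [ordOf]))
      (hord (nX true n, nX false n) (by simp [ordOf]))
  have o6 : π (nY false n) = π (nY true n) :=
    le_antisymm (hord (nY false n, nY true n) (by simp [ordOf]))
      (hord (nY true n, nY false n) (by simp [ordOf]))
  have ost : ∀ c, ∀ i < n, π (nX c i) ≤ π (nX c (i + 1)) ∧ π (nY c (i + 1)) ≤ π (nY c i) ∧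
      π (nX c (i + 1)) ≤ π (nP c i) ∧ π (nX c i) ≤ π (nR c i) := by
    intro c i hi
    have key : ∀ e ∈ stageOrd c i, π e.1 ≤ π e.2 := by
      intro e he
      refine hord e ?_
      unfold ordOf
      rw [List.mem_append, List.mem_append]
      right
      cases c
      · exact Or.inl (List.mem_flatMap.2 ⟨i, List.mem_range.2 hi, he⟩)
      · exact Or.inr (List.mem_flatMap.2 ⟨i, List.mem_range.2 hi, he⟩)
    exact ⟨key (nX c i, nX c (i + 1)) (by simp [stageOrd]),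
      key (nY c (i + 1), nY c i) (by simp [stageOrd]),
      key (nX c (i + 1), nP c i) (by simp [stageOrd]),
      key (nX c i, nR c i) (by simp [stageOrd])⟩
  have hU0 : (0 : ℝ) < A.U := by exact_mod_cast A.U_pos
  obtain ⟨ρ, hρ⟩ : ∃ ρ : ℝ, ρ = ((π nH : ℝ) - π nL) / (2 * A.U) := ⟨_, rfl⟩
  obtain ⟨m, hm⟩ : ∃ m : ℝ, m = ((π nH : ℝ) + π nL) / 2 := ⟨_, rfl⟩
  have hH : (π nH : ℝ) = m + A.U * ρ := by rw [hρ, hm]; field_simp; ring
  have hL : (π nL : ℝ) = m - A.U * ρ := by rw [hρ, hm]; field_simp; ring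
  have hρ0 : 0 ≤ ρ := by
    rw [hρ]
    have : (π nL : ℝ) ≤ π nH := by exact_mod_cast o1
    apply div_nonneg <;> linarith
  have hid := A.identity π ρ m hH hL o2 o5 o6
  -- abbreviations
  let t : Bool → ℕ → ℝ := fun c i => (π (nX c i) : ℝ) - π (nY c i)
  let F : Bool → ℕ → ℝ := fun c i => (t c (i + 1) - t c i) *
    (2 * A.κ c i * ρ - t c i - t c (i + 1)) +
      A.K * (((π (nP c i) : ℝ) - π (nY c i) - A.κ c i * ρ) ^ 2 +
        ((π (nR c i) : ℝ) - π (nY c (i + 1)) - A.κ c i * ρ) ^ 2)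
  let Fs : ℝ := (A.κs * ρ - t true 0) * (A.κs * ρ + t true 0) +
    A.K * ((π nS : ℝ) - π (nY true 0) - A.κs * ρ) ^ 2
  -- nonnegativity of all differences
  have hmono : ∀ c, ∀ i < n, t c i ≤ t c (i + 1) := by
    intro c i hi
    obtain ⟨h1, h2, _, _⟩ := ost c i hi
    have h1' : (π (nX c i) : ℝ) ≤ π (nX c (i + 1)) := by exact_mod_cast h1
    have h2' : (π (nY c (i + 1)) : ℝ) ≤ π (nY c i) := by exact_mod_cast h2
    simp only [t]
    linarith
  have ht0 : ∀ c, 0 ≤ t c 0 := by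
    intro c
    cases c
    · simp only [t, o2]; simp
    · have : (π (nY true 0) : ℝ) ≤ π (nX true 0) := by exact_mod_cast o3
      simp only [t]; linarith
  have htn : ∀ c, ∀ i ≤ n, 0 ≤ t c i := by
    intro c i hi
    induction i with
    | zero => exact ht0 c
    | succ i ih => exact (ih (by omega)).trans (hmono c i (by omega))
  have hκB : ∀ c, ∀ i < n, (A.κ c i : ℝ) ≤ A.B := fun c i hi => by exact_mod_cast A.hB c i hi
  have hκsB : (A.κs : ℝ) ≤ A.B := by exact_mod_cast A.hBs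
  have hN1 : (1 : ℝ) ≤ 2 * n + 1 := by
    have : (0 : ℝ) ≤ n := by positivity
    linarith
  have hKle : 4 * (2 * (n : ℝ) + 1) * ((A.B : ℝ) + 1) ^ 2 ≤ A.K := by
    unfold K; push_cast; rfl
  have hB1 : (1 : ℝ) ≤ A.B := by exact_mod_cast A.hB1
  have hst : ∀ c, ∀ i < n, -(ρ ^ 2 / (2 * n + 1)) ≤ F c i ∧ (F c i ≤ 2 * ρ ^ 2 → 1 ≤ (A.B : ℝ) →
      0 < ρ → |t c (i + 1) - t c i| ≤ 2 * ρ ∨
        |t c (i + 1) - (2 * A.κ c i * ρ - t c i)| ≤ 2 * ρ) := by
    intro c i hi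
    refine stage_lower (N := 2 * n + 1) (B := A.B) hρ0 (htn c i hi.le) (by positivity)
      (hκB c i hi) hN1 hKle (hmono c i hi) ?_
    obtain ⟨_, _, h3, h4⟩ := ost c i hi
    have h3' : (π (nX c (i + 1)) : ℝ) ≤ π (nP c i) := by exact_mod_cast h3
    have h4' : (π (nX c i) : ℝ) ≤ π (nR c i) := by exact_mod_cast h4
    have e1 := neg_abs_le ((π (nP c i) : ℝ) - π (nY c i) - A.κ c i * ρ)
    have e2 := neg_abs_le ((π (nR c i) : ℝ) - π (nY c (i + 1)) - A.κ c i * ρ)
    have e3 := le_abs_self ((π (nP c i) : ℝ) - π (nY c i) - A.κ c i * ρ)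
    have e4 := le_abs_self ((π (nR c i) : ℝ) - π (nY c (i + 1)) - A.κ c i * ρ)
    simp only [t]
    linarith
  have hss : -(ρ ^ 2 / (2 * n + 1)) ≤ Fs ∧ (Fs ≤ 2 * ρ ^ 2 → 1 ≤ (A.B : ℝ) → 0 < ρ →
      |t true 0 - A.κs * ρ| ≤ 2 * ρ) := by
    refine start_lower (N := 2 * n + 1) (B := A.B) hρ0 (ht0 true) (by positivity)
      hκsB hN1 hKle ?_
    have h3' : (π (nX true 0) : ℝ) ≤ π nS := by exact_mod_cast o4
    have e3 := le_abs_self ((π nS : ℝ) - π (nY true 0) - A.κs * ρ)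
    simp only [t]
    linarith
  -- the total
  have hG : 0 ≤ (∑ i ∈ Finset.range n, GE A.K (A.κ false i) (π (nX false i)) (π (nY false i))
        (π (nP false i)) (π (nR false i)) (π (nX false (i + 1))) (π (nY false (i + 1))) m) +
      (∑ i ∈ Finset.range n, GE A.K (A.κ true i) (π (nX true i)) (π (nY true i))
        (π (nP true i)) (π (nR true i)) (π (nX true (i + 1))) (π (nY true (i + 1))) m) +
      2 * A.K * A.κs * (((π nS : ℝ) - m) ^ 2 + ((π (nY true 0) : ℝ) - m) ^ 2) := by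
    have h1 : ∀ (κ x y p r x' y' : ℝ), 0 ≤ κ → 0 ≤ GE A.K κ x y p r x' y' m := by
      intro κ x y p r x' y' hκ
      unfold GE
      have : (0 : ℝ) ≤ A.K := by positivity
      positivity
    refine add_nonneg (add_nonneg ?_ ?_) (by positivity)
    · exact Finset.sum_nonneg fun i _ => h1 _ _ _ _ _ _ _ (by positivity)
    · exact Finset.sum_nonneg fun i _ => h1 _ _ _ _ _ _ _ (by positivity)
  have hT : (∑ i ∈ Finset.range n, F false i) + (∑ i ∈ Finset.range n, F true i) + Fs < ρ ^ 2 := by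
    by_contra hcon
    push Not at hcon
    have hQ' : ((Qf A.gr π : ℤ) : ℝ) < 0 := by exact_mod_cast hQ
    rw [hid] at hQ'
    have h1 : 0 ≤ 4 * (A.U : ℝ) ^ 2 * ((∑ i ∈ Finset.range n, F false i) +
        (∑ i ∈ Finset.range n, F true i) + Fs - ρ ^ 2) := by
      apply mul_nonneg (by positivity)
      linarith
    have h2 := mul_nonneg (mul_nonneg (by norm_num : (0 : ℝ) ≤ 2) hU0.le) hG
    exact absurd hQ' (not_lt.2 (add_nonneg h1 h2))
  obtain ⟨δ, hδ⟩ : ∃ δ : ℝ, δ = ρ ^ 2 / (2 * n + 1) := ⟨_, rfl⟩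
  have hδ0 : 0 ≤ δ := by rw [hδ]; positivity
  have hδn : (2 * n + 1) * δ = ρ ^ 2 := by
    rw [hδ]; field_simp
  simp only [← hδ] at hst hss
  have hsum : ∀ c, -(n * δ) ≤ ∑ i ∈ Finset.range n, F c i := by
    intro c
    have h1 : ∑ i ∈ Finset.range n, (-δ) ≤ ∑ i ∈ Finset.range n, F c i :=
      Finset.sum_le_sum fun i hi => (hst c i (Finset.mem_range.1 hi)).1
    rw [Finset.sum_const, Finset.card_range, nsmul_eq_mul] at h1
    linarith
  have hρpos : 0 < ρ := by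
    rcases hρ0.lt_or_eq with h | h
    · exact h
    · exfalso
      have h1 := hsum false
      have h2 := hsum true
      have h3 := hss.1
      rw [← h] at hT hδn
      have hn0 : (0 : ℝ) ≤ n := by positivity
      have hδz : δ = 0 := by
        rcases mul_eq_zero.1 (hδn.trans (by norm_num : (0 : ℝ) ^ 2 = 0)) with h' | h'
        · linarith
        · exact h'
      rw [hδz] at h1 h2 h3
      have h0 : (0 : ℝ) ^ 2 = 0 := by norm_num
      rw [h0] at hT
      simp only [mul_zero, neg_zero] at h1 h2 h3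
      linarith
  have hsingle : ∀ c, ∀ i < n, F c i ≤ ∑ j ∈ Finset.range n, F c j + (n - 1) * δ := by
    intro c i hi
    have h1 : F c i + δ ≤ ∑ j ∈ Finset.range n, (F c j + δ) :=
      Finset.single_le_sum (f := fun j => F c j + δ)
        (fun j hj => by linarith [(hst c j (Finset.mem_range.1 hj)).1]) (Finset.mem_range.2 hi)
    rw [Finset.sum_add_distrib, Finset.sum_const, Finset.card_range, nsmul_eq_mul] at h1
    linarith
  have hF2 : ∀ c, ∀ i < n, F c i ≤ 2 * ρ ^ 2 := by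
    intro c i hi
    have h1 := hsingle c i hi
    have h2 := hss.1
    cases c
    · have h3 := hsum true
      linarith
    · have h3 := hsum false
      linarith
  have hFs2 : Fs ≤ 2 * ρ ^ 2 := by
    have h3 := hsum true
    have h4 := hsum false
    linarith
  -- follow the two chains
  have hstep : ∀ c, ∀ i < n, |t c (i + 1) - t c i| ≤ 2 * ρ ∨
      |t c (i + 1) - (2 * (A.g * ((A.LL c i : ℤ) : ℝ)) * ρ - t c i)| ≤ 2 * ρ := by
    intro c i hi
    have h1 := (hst c i hi).2 (hF2 c i hi) hB1 hρpos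
    have h2 : (A.κ c i : ℝ) = A.g * ((A.LL c i : ℤ) : ℝ) := by
      unfold κ; push_cast; rfl
    rwa [h2] at h1
  have hZ : ∀ c, ∀ i < n, ∀ z, IsSub (A.b c) (A.o c) i z → IsSub (A.b c) (A.o c) (i + 1) z ∧
      IsSub (A.b c) (A.o c) (i + 1) ((A.LL c i : ℤ) - z) := by
    intro c i hi z hz
    have h1 := hz.step
    rwa [← A.LL_eq c hi] at h1
  obtain ⟨z, ⟨S, hS, hzS⟩, hz⟩ := track (n := n) (t := t false) (L := fun i => (A.LL false i : ℤ))
    (Z := IsSub (A.b false) (A.o false)) (ρ := ρ) (g := A.g) (z0 := 0) (c := 0)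
    ⟨∅, by simp, by simp [o]⟩ (hZ false) (by simp [t, o2]) (hstep false) n le_rfl
  obtain ⟨z', ⟨S', hS', hzS'⟩, hz'⟩ := track (n := n) (t := t true)
    (L := fun i => (A.LL true i : ℤ))
    (Z := IsSub (A.b true) (A.o true)) (ρ := ρ) (g := A.g) (z0 := s) (c := 1)
    ⟨∅, by simp, by simp [o]⟩ (hZ true) (by
      have h1 := hss.2 hFs2 hB1 hρpos
      have h2 : (A.κs : ℝ) = 2 * A.g * (s : ℝ) := by unfold κs; push_cast; rfl
      rw [h2] at h1
      simpa using h1) (hstep true) n le_rfl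
  have htt : t false n = t true n := by simp only [t, o5, o6]
  have hzz : z = z' := by
    by_contra hne
    have h1 : (1 : ℝ) ≤ |(z : ℝ) - z'| := by
      have : (1 : ℤ) ≤ |z - z'| := Int.one_le_abs (sub_ne_zero.2 hne)
      exact_mod_cast this
    have h2 := abs_sub (t false n - 2 * A.g * z * ρ) (t true n - 2 * A.g * z' * ρ)
    have h3 : t false n - 2 * A.g * z * ρ - (t true n - 2 * A.g * z' * ρ) =
        -(2 * A.g * ρ * ((z : ℝ) - z')) := by rw [htt]; ring
    rw [h3, abs_neg, abs_mul, abs_of_nonneg (by positivity : 0 ≤ 2 * (A.g : ℝ) * ρ)] at h2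
    have h4 : 2 * (A.g : ℝ) * ρ ≤ 2 * ρ * (0 + n) + 2 * ρ * (1 + n) := by
      have : 2 * (A.g : ℝ) * ρ * 1 ≤ 2 * (A.g : ℝ) * ρ * |(z : ℝ) - z'| :=
        mul_le_mul_of_nonneg_left h1 (by positivity)
      linarith
    have h5 : (2 * (n : ℝ) + 2) ≤ A.g := by exact_mod_cast A.hg
    have h6 : (2 * (n : ℝ) + 2) * ρ ≤ A.g * ρ := mul_le_mul_of_nonneg_right h5 hρpos.le
    clear hst hss hG hT hstep hZ hsingle hF2 hFs2 hsum hid hord ost
    linarith
  -- read off the subset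
  refine ⟨S, hS, ?_⟩
  have hsum1 : ∑ k ∈ S, A.b false k = A.Λ * (∑ k ∈ S, (2 : ℤ) ^ k) + ∑ k ∈ S, (a k : ℤ) := by
    simp only [b, Bool.false_eq_true, if_false, Finset.sum_add_distrib, Finset.mul_sum]
  have hsum2 : ∑ k ∈ S', A.b true k = A.Λ * (∑ k ∈ S', (2 : ℤ) ^ k) := by
    simp only [b, if_true, add_zero, Finset.mul_sum]
  rw [hzS, hzS', hsum1, hsum2] at hzz
  simp only [o, Bool.false_eq_true, if_false, if_true] at hzz
  have hle : ∑ k ∈ S, a k + s < A.Λ := by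
    have h1 : ∑ k ∈ S, a k ≤ ∑ k ∈ Finset.range n, a k :=
      Finset.sum_le_sum_of_subset_of_nonneg hS fun i _ _ => Nat.zero_le _
    have h2 := A.hΛ n
    omega
  have hcast : ((∑ k ∈ S, a k : ℕ) : ℤ) = ∑ k ∈ S, (a k : ℤ) := by push_cast; rfl
  rw [← hcast] at hzz
  obtain ⟨d, hd⟩ : ∃ d : ℤ, d = (∑ k ∈ S, (2 : ℤ) ^ k) - ∑ k ∈ S', (2 : ℤ) ^ k := ⟨_, rfl⟩
  have hkey : (A.Λ : ℤ) * d = s - ((∑ k ∈ S, a k : ℕ) : ℤ) := by rw [hd]; linarith
  have hd0 : d = 0 := by
    rcases lt_trichotomy d 0 with h | h | h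
    · have : (A.Λ : ℤ) * d ≤ -(A.Λ : ℤ) := by nlinarith
      omega
    · exact h
    · have : (A.Λ : ℤ) ≤ (A.Λ : ℤ) * d := by nlinarith
      omega
  rw [hd0] at hkey
  omega

end Par

end Pool.Agent.H39.QP
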