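import Pool.Agent.H39.QP.Inst
import Pool.Graph.R_seed8.H687R2.IntPoly

/-!
# The reduction is computable in polynomial time
-/

set_option autoImplicit false

namespace Pool.Agent.H39.QP

open Pool.Agent.NPC

attribute [local fun_prop] Poly.ineg Poly.iadd Poly.isub Poly.imul Poly.range_length

variable {α : Type} [TEnc α]

theorem dif_poly {a b v : α → Nd} (ha : Poly a) (hb : Poly b) (hv : Poly v) :
    Poly (fun x => dif (a x) (b x) (v x)) := by
  unfold dif
  fun_prop

attribute [local fun_prop] dif_poly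

theorem ordRow_poly {G : α → Gr} {e : α → Nd × Nd} (hG : Poly G) (he : Poly e) :
    Poly (fun x => ordRow (G x) (e x)) := by
  unfold ordRow
  fun_prop

theorem posRow_poly {G : α → Gr} {e : α → ((Nd × Nd) × ℤ) × ℕ} (hG : Poly G) (he : Poly e) :
    Poly (fun x => posRow (G x) (e x)) := by
  unfold posRow
  fun_prop

theorem negRow_poly {G : α → Gr} {e : α → ((Nd × Nd) × ℤ) × ℕ} (hG : Poly G) (he : Poly e) :
    Poly (fun x => negRow (G x) (e x)) := by
  unfold negRow
  fun_prop

attribute [local fun_prop] ordRow_poly posRow_poly negRow_poly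

theorem rowsOf_poly {G : α → Gr} (hG : Poly G) : Poly (fun x => rowsOf (G x)) := by
  unfold rowsOf
  fun_prop

attribute [local fun_prop] rowsOf_poly

theorem compile_poly {G : α → Gr} (hG : Poly G) : Poly (fun a => compile (G a)) := by
  have h2 : Poly (fun a => (rowsOf (G a), (rowsOf (G a)).map (fun _ => (0 : ℤ)),
      (G a).1.map (fun _ => (0 : ℤ)) ++ (G a).2.2.map (fun _ => (0 : ℤ)),
      (G a).1.map (fun _ => (0 : ℤ)) ++ (G a).2.2.map (fun e => e.2))) := by
    fun_prop
  exact Poly.of_toT (Poly.toT' h2)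

/-! ### The parameters -/

/-- instances of subset sum -/
abbrev X := List ℕ × ℕ

theorem n_u : UPoly (fun x : X => x.1.length) := UPoly.length (NPC.Poly.fst NPC.Poly.id)

theorem pow_poly {f : α → X} {i : α → ℕ} (hf : NPC.Poly f) (hi : NPC.Poly i) :
    NPC.Poly (fun a => 2 ^ (min (i a) (f a).1.length)) := by
  refine NPC.Poly.npow (NPC.Poly.const 2) (UPoly.of_le (n := fun a => (f a).1.length) ?_ ?_ ?_)
  · fun_prop
  · exact UPoly.length (NPC.Poly.fst hf)
  · exact fun a => min_le_right _ _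

theorem powlen_poly {f : α → X} (hf : NPC.Poly f) : NPC.Poly (fun a => 2 ^ (f a).1.length) :=
  NPC.Poly.npow (NPC.Poly.const 2) (UPoly.length (NPC.Poly.fst hf))

attribute [local fun_prop] pow_poly powlen_poly

theorem Λ_poly {f : α → X} (hf : NPC.Poly f) : NPC.Poly (fun a => xΛ (f a)) := by
  unfold xΛ; fun_prop

theorem g_poly {f : α → X} (hf : NPC.Poly f) : NPC.Poly (fun a => xg (f a)) := by
  unfold xg; fun_prop

attribute [local fun_prop] Λ_poly g_poly

/-- the sum of the first items -/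
def xS (x : X) (i : ℕ) : ℕ :=
  (((List.range x.1.length).filter fun k => k ≤ i).map fun k => x.1.getD k 0).sum

theorem S_poly0 : NPC.Poly (fun p : X × ℕ => xS p.1 p.2) := by
  unfold xS
  refine NPC.Poly.sum (NPC.Poly.map (l := fun p : X × ℕ =>
    (List.range p.1.1.length).filter fun k => k ≤ p.2) (F := fun p k => p.1.1.getD k 0) ?_ ?_)
  · exact NPC.Poly.filter (l := fun p : X × ℕ => List.range p.1.1.length)
      (p := fun p k => decide (k ≤ p.2))
      (NPC.Poly.range_length (NPC.Poly.fst (NPC.Poly.fst NPC.Poly.id))) (by fun_prop)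
  · fun_prop

theorem S_poly {f : α → X} {i : α → ℕ} (hf : NPC.Poly f) (hi : NPC.Poly i) :
    NPC.Poly (fun a => xS (f a) (i a)) :=
  NPC.Poly.comp (g := fun p : X × ℕ => xS p.1 p.2) (f := fun a => (f a, i a)) S_poly0
    (NPC.Poly.pair hf hi)

attribute [local fun_prop] S_poly

attribute [local irreducible] xS xΛ xg

theorem xLL_false (x : X) (i : ℕ) :
    xLL x false i = xΛ x * (2 ^ (min (i + 1) x.1.length) - 1) + xS x i := by
  unfold xLL xS; simp

theorem xLL_true (x : X) (i : ℕ) :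
    xLL x true i = xΛ x * (2 ^ (min (i + 1) x.1.length) - 1) + 2 * x.2 := by
  unfold xLL; simp

theorem LL_poly (c : Bool) {f : α → X} {i : α → ℕ} (hf : NPC.Poly f) (hi : NPC.Poly i) :
    NPC.Poly (fun a => xLL (f a) c (i a)) := by
  have h0 : NPC.Poly (fun a => xΛ (f a) * (2 ^ (min (i a + 1) (f a).1.length) - 1)) :=
    NPC.Poly.mul (Λ_poly hf) (NPC.Poly.sub (pow_poly hf (NPC.Poly.add hi (NPC.Poly.const 1)))
      (NPC.Poly.const 1))
  cases c
  · exact (NPC.Poly.add h0 (S_poly hf hi)).congr fun a => (xLL_false _ _).symm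
  · exact (NPC.Poly.add h0 (NPC.Poly.mul (NPC.Poly.const 2) (NPC.Poly.snd hf))).congr
      fun a => (xLL_true _ _).symm

theorem B_poly {f : α → X} (hf : NPC.Poly f) : NPC.Poly (fun a => xB (f a)) :=
  NPC.Poly.mul (g_poly hf) (NPC.Poly.mul (NPC.Poly.mul (NPC.Poly.const 2) (Λ_poly hf))
    (powlen_poly hf))

attribute [local fun_prop] LL_poly B_poly

attribute [local irreducible] xLL xB

/-- capacities -/
def xκ (x : X) (c : Bool) (i : ℕ) : ℕ := (parOf x).κ c i
/-- capacity of the start -/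
def xκs (x : X) : ℕ := (parOf x).κs
/-- stiffness -/
def xK (x : X) : ℕ := (parOf x).K
/-- total force -/
def xctot (x : X) : ℕ := (parOf x).ctot
/-- far away -/
def xU (x : X) : ℕ := (parOf x).U
/-- positive weight -/
def xcp (x : X) : ℕ := (parOf x).cp
/-- negative weight -/
def xcm (x : X) : ℕ := (parOf x).cm

theorem grx_eq (x : X) : ((nodesOf x.1.length, ordOf x.1.length, edgesOf x.1.length
      (xU x) (xK x) (xκ x) (xκs x) (xcp x) (xcm x)) : Gr) = grx x := rfl

theorem κ_poly (c : Bool) {f : α → X} {i : α → ℕ} (hf : NPC.Poly f) (hi : NPC.Poly i) :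
    NPC.Poly (fun a => xκ (f a) c (i a)) := by
  change NPC.Poly (fun a => xg (f a) * xLL (f a) c (i a))
  fun_prop

theorem κs_poly {f : α → X} (hf : NPC.Poly f) : NPC.Poly (fun a => xκs (f a)) := by
  change NPC.Poly (fun a => 2 * xg (f a) * (f a).2)
  fun_prop

theorem K_poly {f : α → X} (hf : NPC.Poly f) : NPC.Poly (fun a => xK (f a)) := by
  change NPC.Poly (fun a => 4 * (2 * (f a).1.length + 1) * (xB (f a) + 1) ^ 2)
  simp only [pow_two]
  fun_prop

attribute [local fun_prop] κ_poly κs_poly K_poly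

theorem sumκ_poly (c : Bool) {f : α → X} (hf : NPC.Poly f) :
    NPC.Poly (fun a => ((List.range (f a).1.length).map
      fun i => (4 * xK (f a) + 4) * xκ (f a) c i).sum) := by
  refine NPC.Poly.sum (NPC.Poly.map (l := fun a => List.range (f a).1.length)
    (F := fun a i => (4 * xK (f a) + 4) * xκ (f a) c i) ?_ ?_)
  · exact NPC.Poly.range_length (NPC.Poly.fst hf)
  · have h1 : NPC.Poly (fun p : α × ℕ => f p.1) := hf.comp (NPC.Poly.fst NPC.Poly.id)
    fun_prop

theorem sumκ2_poly (c : Bool) {f : α → X} (hf : NPC.Poly f) :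
    NPC.Poly (fun a => ((List.range (f a).1.length).map
      fun i => 2 * (xκ (f a) c i * xκ (f a) c i)).sum) := by
  refine NPC.Poly.sum (NPC.Poly.map (l := fun a => List.range (f a).1.length)
    (F := fun a i => 2 * (xκ (f a) c i * xκ (f a) c i)) ?_ ?_)
  · exact NPC.Poly.range_length (NPC.Poly.fst hf)
  · have h1 : NPC.Poly (fun p : α × ℕ => f p.1) := hf.comp (NPC.Poly.fst NPC.Poly.id)
    fun_prop

theorem ctot_poly {f : α → X} (hf : NPC.Poly f) : NPC.Poly (fun a => xctot (f a)) := by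
  have h1 := NPC.Poly.add (NPC.Poly.add (sumκ_poly false hf) (sumκ_poly true hf))
    (NPC.Poly.mul (NPC.Poly.mul (NPC.Poly.const 2) (K_poly hf)) (κs_poly hf))
  refine h1.congr fun a => ?_
  rw [sum_range_list, sum_range_list]
  rfl

attribute [local fun_prop] ctot_poly

theorem U_poly {f : α → X} (hf : NPC.Poly f) : NPC.Poly (fun a => xU (f a)) := by
  change NPC.Poly (fun a => xctot (f a) * (xB (f a)) ^ 2 + 1)
  simp only [pow_two]
  fun_prop

attribute [local fun_prop] U_poly

theorem cp_poly {f : α → X} (hf : NPC.Poly f) : NPC.Poly (fun a => xcp (f a)) := by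
  have h1 := NPC.Poly.add (NPC.Poly.mul (κs_poly hf) (κs_poly hf))
    (NPC.Poly.mul (K_poly hf) (NPC.Poly.add (NPC.Poly.add (sumκ2_poly false hf)
      (sumκ2_poly true hf)) (NPC.Poly.mul (κs_poly hf) (κs_poly hf))))
  refine h1.congr fun a => ?_
  rw [sum_range_list, sum_range_list]
  simp only [← pow_two]
  rfl

theorem cm_poly {f : α → X} (hf : NPC.Poly f) : NPC.Poly (fun a => xcm (f a)) := by
  change NPC.Poly (fun a => xU (f a) * xctot (f a) + 1)
  fun_prop

attribute [local fun_prop] cp_poly cm_poly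

attribute [local irreducible] xκ xκs xK xctot xU xcp xcm

theorem nodes_poly {f : α → X} (hf : NPC.Poly f) :
    NPC.Poly (fun a => nodesOf (f a).1.length) := by
  unfold nodesOf
  have h : NPC.Poly (fun x : X => List.range (x.1.length + 1)) :=
    (n_u.add (UPoly.const 1)).range
  have h' : NPC.Poly (fun a => List.range ((f a).1.length + 1)) := h.comp hf
  refine NPC.Poly.append ?_ (NPC.Poly.const _)
  refine NPC.Poly.flatMap (l := fun _ : α => List.range 8)
    (F := fun a t => (List.range ((f a).1.length + 1)).map fun i => (t, i)) (NPC.Poly.const _) ?_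
  exact NPC.Poly.map (l := fun p : α × ℕ => List.range ((f p.1).1.length + 1))
    (F := fun p i => (p.2, i)) (h'.comp (NPC.Poly.fst NPC.Poly.id)) (by fun_prop)

theorem nX_poly (c : Bool) {i : α → ℕ} (hi : NPC.Poly i) : NPC.Poly (fun a => nX c (i a)) :=
  NPC.Poly.pair (NPC.Poly.const _) hi
theorem nY_poly (c : Bool) {i : α → ℕ} (hi : NPC.Poly i) : NPC.Poly (fun a => nY c (i a)) :=
  NPC.Poly.pair (NPC.Poly.const _) hi
theorem nP_poly (c : Bool) {i : α → ℕ} (hi : NPC.Poly i) : NPC.Poly (fun a => nP c (i a)) :=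
  NPC.Poly.pair (NPC.Poly.const _) hi
theorem nR_poly (c : Bool) {i : α → ℕ} (hi : NPC.Poly i) : NPC.Poly (fun a => nR c (i a)) :=
  NPC.Poly.pair (NPC.Poly.const _) hi

attribute [local fun_prop] nX_poly nY_poly nP_poly nR_poly

attribute [local irreducible] nX nY nP nR nH nL nS

theorem stageOrd_poly (c : Bool) {i : α → ℕ} (hi : NPC.Poly i) :
    NPC.Poly (fun a => stageOrd c (i a)) := by
  unfold stageOrd
  fun_prop

theorem ord_poly {f : α → X} (hf : NPC.Poly f) : NPC.Poly (fun a => ordOf (f a).1.length) := by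
  have h1 : ∀ c, NPC.Poly (fun a => (List.range (f a).1.length).flatMap
      (fun i => stageOrd c i)) := fun c =>
    NPC.Poly.flatMap (l := fun a => List.range (f a).1.length) (F := fun _ i => stageOrd c i)
      (NPC.Poly.range_length (NPC.Poly.fst hf)) (stageOrd_poly c (NPC.Poly.snd NPC.Poly.id))
  unfold ordOf
  refine NPC.Poly.append ?_ (NPC.Poly.append (h1 false) (h1 true))
  fun_prop

theorem stageEdges_poly (c : Bool) {U K κ : α → ℕ} {i : α → ℕ} (hU : NPC.Poly U)
    (hK : NPC.Poly K) (hκ : NPC.Poly κ) (hi : NPC.Poly i) :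
    NPC.Poly (fun a => stageEdges (U a) (K a) (κ a) c (i a)) := by
  have e1 : NPC.Poly (fun a => ((4 * U a * U a * K a : ℕ) : ℤ)) := by fun_prop
  have e2 : NPC.Poly (fun a => ((4 * U a * K a * κ a : ℕ) : ℤ)) := by fun_prop
  have e3 : NPC.Poly (fun a => ((4 * U a * κ a : ℕ) : ℤ)) := by fun_prop
  unfold stageEdges
  have hi1 : NPC.Poly (fun a => i a + 1) := by fun_prop
  have nil : NPC.Poly (fun _ : α => ([] : List ((Nd × Nd) × ℤ))) := NPC.Poly.const _
  have H : NPC.Poly (fun _ : α => nH) := NPC.Poly.const _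
  have L : NPC.Poly (fun _ : α => nL) := NPC.Poly.const _
  exact NPC.Poly.cons (NPC.Poly.pair (NPC.Poly.pair (nP_poly c hi) (nY_poly c hi)) e1)
    (NPC.Poly.cons (NPC.Poly.pair (NPC.Poly.pair (nR_poly c hi) (nY_poly c hi1)) e1)
    (NPC.Poly.cons (NPC.Poly.pair (NPC.Poly.pair H (nP_poly c hi)) e2)
    (NPC.Poly.cons (NPC.Poly.pair (NPC.Poly.pair (nY_poly c hi) L) e2)
    (NPC.Poly.cons (NPC.Poly.pair (NPC.Poly.pair H (nR_poly c hi)) e2)
    (NPC.Poly.cons (NPC.Poly.pair (NPC.Poly.pair (nY_poly c hi1) L) e2)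
    (NPC.Poly.cons (NPC.Poly.pair (NPC.Poly.pair H (nY_poly c hi1)) e3)
    (NPC.Poly.cons (NPC.Poly.pair (NPC.Poly.pair (nX_poly c hi1) L) e3)
    (NPC.Poly.cons (NPC.Poly.pair (NPC.Poly.pair H (nX_poly c hi)) e3)
    (NPC.Poly.cons (NPC.Poly.pair (NPC.Poly.pair (nY_poly c hi) L) e3) nil)))))))))

theorem edges_poly {f : α → X} (hf : NPC.Poly f) : NPC.Poly (fun a => edgesOf (f a).1.length
    (xU (f a)) (xK (f a)) (xκ (f a)) (xκs (f a)) (xcp (f a)) (xcm (f a))) := by
  have h1 : ∀ c, NPC.Poly (fun a => (List.range (f a).1.length).flatMap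
      (fun i => stageEdges (xU (f a)) (xK (f a)) (xκ (f a) c i) c i)) := fun c =>
    NPC.Poly.flatMap (l := fun a => List.range (f a).1.length)
      (F := fun a i => stageEdges (xU (f a)) (xK (f a)) (xκ (f a) c i) c i)
      (NPC.Poly.range_length (NPC.Poly.fst hf))
      (stageEdges_poly c (U_poly (hf.comp (NPC.Poly.fst NPC.Poly.id)))
        (K_poly (hf.comp (NPC.Poly.fst NPC.Poly.id)))
        (κ_poly c (hf.comp (NPC.Poly.fst NPC.Poly.id)) (NPC.Poly.snd NPC.Poly.id))
        (NPC.Poly.snd NPC.Poly.id))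
  unfold edgesOf
  refine NPC.Poly.append ?_ (NPC.Poly.append (h1 false) (h1 true))
  have hU := U_poly hf
  have hK := K_poly hf
  have hκs := κs_poly hf
  have hcp := cp_poly hf
  have hcm := cm_poly hf
  have e1 : NPC.Poly (fun a => ((4 * xU (f a) * xU (f a) * xK (f a) : ℕ) : ℤ)) := by fun_prop
  have e2 : NPC.Poly (fun a => ((4 * xU (f a) * xK (f a) * xκs (f a) : ℕ) : ℤ)) := by fun_prop
  have e3 : NPC.Poly (fun a => ((xcp (f a) : ℕ) : ℤ)) := by fun_prop
  have e4 : NPC.Poly (fun a => -((8 * xU (f a) * xU (f a) : ℕ) : ℤ)) := by fun_prop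
  have e5 : NPC.Poly (fun a => -((xcm (f a) : ℕ) : ℤ)) := by fun_prop
  have nil : NPC.Poly (fun _ : α => ([] : List ((Nd × Nd) × ℤ))) := NPC.Poly.const _
  have H : NPC.Poly (fun _ : α => nH) := NPC.Poly.const _
  have L : NPC.Poly (fun _ : α => nL) := NPC.Poly.const _
  have S : NPC.Poly (fun _ : α => nS) := NPC.Poly.const _
  have Y0 : NPC.Poly (fun _ : α => nY true 0) := NPC.Poly.const _
  have hn : NPC.Poly (fun a => (f a).1.length) := by fun_prop
  exact NPC.Poly.cons (NPC.Poly.pair (NPC.Poly.pair S Y0) e1)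
    (NPC.Poly.cons (NPC.Poly.pair (NPC.Poly.pair H S) e2)
    (NPC.Poly.cons (NPC.Poly.pair (NPC.Poly.pair Y0 L) e2)
    (NPC.Poly.cons (NPC.Poly.pair (NPC.Poly.pair H L) e3)
    (NPC.Poly.cons (NPC.Poly.pair (NPC.Poly.pair (nX_poly false hn) (nY_poly false hn)) e4)
    (NPC.Poly.cons (NPC.Poly.pair (NPC.Poly.pair H L) e5) nil)))))

theorem grx_poly : NPC.Poly grx := by
  have h1 : NPC.Poly (fun x : X => ((nodesOf x.1.length, ordOf x.1.length, edgesOf x.1.length
      (xU x) (xK x) (xκ x) (xκs x) (xcp x) (xcm x)) : Gr)) :=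
    NPC.Poly.pair (nodes_poly NPC.Poly.id)
      (NPC.Poly.pair (ord_poly NPC.Poly.id) (edges_poly NPC.Poly.id))
  exact h1.congr fun x => grx_eq x

theorem inst_poly : NPC.Poly (fun x => compile (grx x)) := compile_poly grx_poly

end Pool.Agent.H39.QP
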