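import Pool.Agent.H39.QP.Main

/-!
# From a subset with the right sum to a negative value of the quadratic form
-/

set_option autoImplicit false

namespace Pool.Agent.H39.QP

namespace Par

variable {n : ℕ} {a : ℕ → ℕ} {s : ℕ} (A : Par n a s)

/-- the potential -/
def pot (z : Bool → ℕ → ℤ) (v : Nd) : ℤ :=
  match v.1 with
  | 0 => A.g * z false v.2
  | 1 => -(A.g * z false v.2)
  | 2 => A.g * (A.LL false v.2 - z false v.2)
  | 3 => A.g * (A.LL false v.2 - z false (v.2 + 1))
  | 4 => A.g * z true v.2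
  | 5 => -(A.g * z true v.2)
  | 6 => A.g * (A.LL true v.2 - z true v.2)
  | 7 => A.g * (A.LL true v.2 - z true (v.2 + 1))
  | 8 => A.U
  | 9 => -A.U
  | _ => A.g * s

theorem pot_X (z : Bool → ℕ → ℤ) (c : Bool) (i : ℕ) : A.pot z (nX c i) = A.g * z c i := by
  cases c <;> rfl
theorem pot_Y (z : Bool → ℕ → ℤ) (c : Bool) (i : ℕ) : A.pot z (nY c i) = -(A.g * z c i) := by
  cases c <;> rfl
theorem pot_P (z : Bool → ℕ → ℤ) (c : Bool) (i : ℕ) :
    A.pot z (nP c i) = A.g * (A.LL c i - z c i) := by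
  cases c <;> rfl
theorem pot_R (z : Bool → ℕ → ℤ) (c : Bool) (i : ℕ) :
    A.pot z (nR c i) = A.g * (A.LL c i - z c (i + 1)) := by
  cases c <;> rfl
theorem pot_H (z : Bool → ℕ → ℤ) : A.pot z nH = A.U := rfl
theorem pot_L (z : Bool → ℕ → ℤ) : A.pot z nL = -A.U := rfl
theorem pot_S (z : Bool → ℕ → ℤ) : A.pot z nS = A.g * s := rfl

theorem GE_le {K κ x y p r x' y' B : ℝ} (hK : 0 ≤ K) (hκ : 0 ≤ κ)
    (hx : |x| ≤ B) (hy : |y| ≤ B) (hp : |p| ≤ B) (hr : |r| ≤ B) (hx' : |x'| ≤ B)
    (hy' : |y'| ≤ B) : GE K κ x y p r x' y' 0 ≤ 2 * (((4 * K + 4) * κ) * B ^ 2) := by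
  have key : ∀ u : ℝ, |u| ≤ B → (u - 0) ^ 2 ≤ B ^ 2 := by
    intro u hu
    rw [sub_zero, ← sq_abs]
    exact pow_le_pow_left₀ (abs_nonneg u) hu 2
  unfold GE
  have h1 := mul_nonneg hK hκ
  have e1 := mul_le_mul_of_nonneg_left (add_le_add (add_le_add (add_le_add (key p hp) (key y hy))
    (key r hr)) (key y' hy')) (by positivity : 0 ≤ 2 * K * κ)
  have e2 := mul_le_mul_of_nonneg_left (add_le_add (add_le_add (add_le_add (key y' hy')
    (key x' hx')) (key x hx)) (key y hy)) (by positivity : 0 ≤ 2 * κ)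
  linarith

theorem yes_instance (S : Finset ℕ) (hS : S ⊆ Finset.range n) (hs : ∑ k ∈ S, a k = s) :
    ∃ π : Nd → ℤ, (∀ e ∈ A.gr.2.1, π e.1 ≤ π e.2) ∧ Qf A.gr π < 0 := by
  have hpath : ∀ c : Bool, ∃ z : ℕ → ℤ, z 0 = A.o c ∧
      z n = A.o c + ∑ k ∈ S, A.b c k ∧ ∀ i < n,
        z i ≤ z (i + 1) ∧ z i + z (i + 1) ≤ A.LL c i ∧
        (z (i + 1) - z i) * ((A.LL c i : ℤ) - z i - z (i + 1)) = 0 := by
    intro c
    obtain ⟨z, h0, hn, hz⟩ := exists_path (A.b c) (A.o c) (A.b_nonneg c) (A.b_super c) n S hS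
    refine ⟨z, h0, hn, fun i hi => ?_⟩
    rw [A.LL_eq c hi]
    exact hz i hi
  choose z hz0 hzn hz using hpath
  have ho : ∀ c, 0 ≤ A.o c := by intro c; cases c <;> simp [o]
  have hnn : ∀ c, ∀ i ≤ n, 0 ≤ z c i := by
    intro c i
    induction i with
    | zero => intro _; rw [hz0]; exact ho c
    | succ i ih => intro hi; exact (ih (by omega)).trans (hz c i (by omega)).1
  have hg0 : (0 : ℤ) ≤ A.g := by positivity
  have hends : z false n = z true n := by
    rw [hzn, hzn]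
    simp only [b, o, Bool.false_eq_true, if_false, if_true, add_zero, Finset.sum_add_distrib]
    have : (∑ k ∈ S, (a k : ℤ)) = s := by rw [← hs]; push_cast; rfl
    rw [this]
    ring
  refine ⟨A.pot z, ?_, ?_⟩
  · intro e he
    change e ∈ ordOf n at he
    simp only [ordOf, List.mem_append, List.mem_flatMap, List.mem_range, stageOrd, List.mem_cons,
      List.not_mem_nil, or_false] at he
    have hst : ∀ c, ∀ i < n, ∀ e : Nd × Nd, (e = (nX c i, nX c (i + 1)) ∨
        e = (nY c (i + 1), nY c i) ∨ e = (nX c (i + 1), nP c i) ∨ e = (nX c i, nR c i)) →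
        A.pot z e.1 ≤ A.pot z e.2 := by
      intro c i hi e he
      obtain ⟨h1, h2, _⟩ := hz c i hi
      rcases he with rfl | rfl | rfl | rfl
      · rw [pot_X, pot_X]
        exact mul_le_mul_of_nonneg_left h1 hg0
      · rw [pot_Y, pot_Y]
        exact neg_le_neg (mul_le_mul_of_nonneg_left h1 hg0)
      · rw [pot_X, pot_P]
        exact mul_le_mul_of_nonneg_left (by linarith) hg0
      · rw [pot_X, pot_R]
        exact mul_le_mul_of_nonneg_left (by linarith) hg0
    have hU : (0 : ℤ) ≤ A.U := by positivity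
    rcases he with (rfl | rfl | rfl | rfl | rfl | rfl | rfl | rfl | rfl) |
      (⟨i, hi, he⟩ | ⟨i, hi, he⟩)
    · rw [pot_L, pot_H]; linarith
    · rw [pot_X, pot_Y, hz0]; simp [o]
    · rw [pot_X, pot_Y, hz0]; simp [o]
    · rw [pot_X, pot_Y, hz0]
      have := mul_nonneg hg0 (ho true)
      linarith
    · rw [pot_X, pot_S, hz0]; simp [o]
    · rw [pot_X, pot_X, hends]
    · rw [pot_X, pot_X, hends]
    · rw [pot_Y, pot_Y, hends]
    · rw [pot_Y, pot_Y, hends]
    · exact hst false i hi e he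
    · exact hst true i hi e he
  · have hid := A.identity (A.pot z) 1 0 (by rw [pot_H]; push_cast; ring)
      (by rw [pot_L]; push_cast; ring) (by rw [pot_X, pot_Y, hz0]; simp [o])
      (by rw [pot_X, pot_X, hends]) (by rw [pot_Y, pot_Y, hends])
    have hzero : ∀ c, ∑ i ∈ Finset.range n,
        ((((A.pot z (nX c (i + 1)) : ℝ) - A.pot z (nY c (i + 1))) -
          ((A.pot z (nX c i) : ℝ) - A.pot z (nY c i))) *
          (2 * A.κ c i * 1 - ((A.pot z (nX c i) : ℝ) - A.pot z (nY c i)) -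
            ((A.pot z (nX c (i + 1)) : ℝ) - A.pot z (nY c (i + 1)))) +
          A.K * (((A.pot z (nP c i) : ℝ) - A.pot z (nY c i) - A.κ c i * 1) ^ 2 +
            ((A.pot z (nR c i) : ℝ) - A.pot z (nY c (i + 1)) - A.κ c i * 1) ^ 2)) = 0 := by
      intro c
      refine Finset.sum_eq_zero fun i hi => ?_
      have h1 := (hz c i (Finset.mem_range.1 hi)).2.2
      have h2 : ((z c (i + 1) : ℝ) - z c i) * ((A.LL c i : ℝ) - z c i - z c (i + 1)) = 0 := by
        exact_mod_cast h1
      rw [pot_X, pot_X, pot_Y, pot_Y, pot_P, pot_R]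
      unfold κ
      push_cast
      have h3 : ((A.g : ℝ) * z c (i + 1) - -(A.g * z c (i + 1)) - (A.g * z c i -
          -(A.g * z c i))) * (2 * (A.g * A.LL c i) * 1 - (A.g * z c i - -(A.g * z c i)) -
          (A.g * z c (i + 1) - -(A.g * z c (i + 1)))) = 4 * (A.g : ℝ) ^ 2 *
          (((z c (i + 1) : ℝ) - z c i) * ((A.LL c i : ℝ) - z c i - z c (i + 1))) := by ring
      rw [h3, h2]
      ring
    have hzs : ((A.κs : ℝ) * 1 - ((A.pot z (nX true 0) : ℝ) - A.pot z (nY true 0))) *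
        (A.κs * 1 + ((A.pot z (nX true 0) : ℝ) - A.pot z (nY true 0))) +
        A.K * ((A.pot z nS : ℝ) - A.pot z (nY true 0) - A.κs * 1) ^ 2 = 0 := by
      rw [pot_X, pot_Y, pot_S, hz0]
      unfold κs o
      simp only [if_true]
      push_cast
      ring
    rw [hzero false, hzero true, hzs] at hid
    have hUc : (A.U : ℝ) = (∑ i ∈ Finset.range n, (4 * (A.K : ℝ) + 4) * A.κ false i +
      ∑ i ∈ Finset.range n, (4 * (A.K : ℝ) + 4) * A.κ true i + 2 * A.K * A.κs) * A.B ^ 2 + 1 := by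
      unfold U ctot; push_cast; rfl
    have hK0 : (0 : ℝ) ≤ A.K := by positivity
    have hGE : ∀ c, ∀ i < n, GE A.K (A.κ c i) (A.pot z (nX c i)) (A.pot z (nY c i))
        (A.pot z (nP c i)) (A.pot z (nR c i)) (A.pot z (nX c (i + 1))) (A.pot z (nY c (i + 1))) 0 ≤
        2 * (((4 * A.K + 4) * A.κ c i) * A.B ^ 2) := by
      intro c i hi
      obtain ⟨h1, h2, _⟩ := hz c i hi
      have p0 := hnn c i hi.le
      have p1 := hnn c (i + 1) hi
      have hB : (A.g : ℤ) * A.LL c i ≤ A.B := by exact_mod_cast A.hB c i hi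
      have b0 : (A.g : ℤ) * z c i ≤ A.g * A.LL c i := mul_le_mul_of_nonneg_left (by linarith) hg0
      have b1 : (A.g : ℤ) * z c (i + 1) ≤ A.g * A.LL c i :=
        mul_le_mul_of_nonneg_left (by linarith) hg0
      have c0 := mul_nonneg hg0 p0
      have c1 := mul_nonneg hg0 p1
      have hab : ∀ u : ℤ, -(A.B : ℤ) ≤ u → u ≤ A.B → |(u : ℝ)| ≤ A.B := by
        intro u h1 h2
        rw [abs_le]
        constructor
        · exact_mod_cast h1
        · exact_mod_cast h2
      refine GE_le hK0 (by positivity) ?_ ?_ ?_ ?_ ?_ ?_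
      · rw [pot_X]; exact hab _ (by linarith) (by linarith)
      · rw [pot_Y]; exact hab _ (by linarith) (by linarith)
      · rw [pot_P]; exact hab _ (by linarith) (by linarith)
      · rw [pot_R]; exact hab _ (by linarith) (by linarith)
      · rw [pot_X]; exact hab _ (by linarith) (by linarith)
      · rw [pot_Y]; exact hab _ (by linarith) (by linarith)
    have hsumGE : ∀ c, ∑ i ∈ Finset.range n, GE A.K (A.κ c i) (A.pot z (nX c i))
        (A.pot z (nY c i)) (A.pot z (nP c i)) (A.pot z (nR c i)) (A.pot z (nX c (i + 1)))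
        (A.pot z (nY c (i + 1))) 0 ≤
        2 * ((∑ i ∈ Finset.range n, (4 * (A.K : ℝ) + 4) * A.κ c i) * A.B ^ 2) := by
      intro c
      rw [Finset.sum_mul, Finset.mul_sum]
      exact Finset.sum_le_sum fun i hi => hGE c i (Finset.mem_range.1 hi)
    have hstart : 2 * (A.K : ℝ) * A.κs * (((A.pot z nS : ℝ) - 0) ^ 2 +
        ((A.pot z (nY true 0) : ℝ) - 0) ^ 2) ≤ 2 * ((2 * A.K * A.κs) * A.B ^ 2) := by
      rw [pot_S, pot_Y, hz0]
      have h1 : (0 : ℝ) ≤ A.g * s := by positivity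
      have h2 : (A.g : ℝ) * s ≤ A.B := by
        have : ((2 * A.g * s : ℕ) : ℝ) ≤ A.B := by exact_mod_cast A.hBs
        push_cast at this
        linarith
      have h3 : ((A.g : ℝ) * s) ^ 2 ≤ A.B ^ 2 := pow_le_pow_left₀ h1 h2 2
      have h4 : 0 ≤ 2 * (A.K : ℝ) * A.κs := by positivity
      have h5 := mul_le_mul_of_nonneg_left h3 h4
      unfold o
      simp only [if_true]
      push_cast
      linarith
    have e1 := hsumGE false
    have e2 := hsumGE true
    have hU0 : (0 : ℝ) < A.U := by exact_mod_cast A.U_pos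
    have hfin : ((Qf A.gr (A.pot z) : ℤ) : ℝ) < 0 := by
      rw [hid]
      obtain ⟨G, hG⟩ : ∃ G, G = (∑ i ∈ Finset.range n, GE A.K (A.κ false i)
        (A.pot z (nX false i)) (A.pot z (nY false i))
        (A.pot z (nP false i)) (A.pot z (nR false i)) (A.pot z (nX false (i + 1)))
        (A.pot z (nY false (i + 1))) 0) +
      (∑ i ∈ Finset.range n, GE A.K (A.κ true i) (A.pot z (nX true i)) (A.pot z (nY true i))
        (A.pot z (nP true i)) (A.pot z (nR true i)) (A.pot z (nX true (i + 1)))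
        (A.pot z (nY true (i + 1))) 0) +
      2 * A.K * A.κs * (((A.pot z nS : ℝ) - 0) ^ 2 + ((A.pot z (nY true 0) : ℝ) - 0) ^ 2) :=
        ⟨_, rfl⟩
      rw [← hG]
      have hGU : G < 2 * A.U := by
        rw [hG, hUc]
        linarith
      have : 2 * (A.U : ℝ) * G < 2 * A.U * (2 * A.U) := mul_lt_mul_of_pos_left hGU (by linarith)
      linarith
    exact_mod_cast hfin

end Par

end Pool.Agent.H39.QP
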